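import Mathlib

/-!
# Automorphic L-functions of `GSp(2n)` through Satake parameters

Definitions for the results on the analytic continuation of the L-functions of `GSp(2n)`.

The maximal torus of the dual group `GSpin_{2n+1}(ℂ)` of `GSp_{2n}` is identified with `(ℂˣ)^{n+1}`: the point
`(b₀; b₁, …, b_n)` corresponds to the unramified characters `χ₀, χ₁, …, χ_n` with `χ_i(p) = b_i` of
the torus `diag(t₁, …, t_n, c/t₁, …, c/t_n) ↦ χ₀(c) ∏ χ_i(t_i)` of `GSp_{2n}(ℚ_p)`.  The weights are the vectors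
`(e₀; e₁, …, e_n)` of integers (the character `b₀^{e₀} ∏ b_i^{e_i}`).  The Weyl group is generated by the
permutations of `b₁, …, b_n` and by `(b₀; b_i) ↦ (b₀ b_i; b_i⁻¹)`, which acts on the weights by
`e_i ↦ e₀ - e_i`.  The spin representation `r` has the weights `(1; e)` with `e_i ∈ {0, 1}`, the standard
representation `GSpin_{2n+1} → SO_{2n+1}` has the eigenvalues `1, b_i, b_i⁻¹`, the similitude character
is `b₀² ∏ b_i`.
-/

set_option autoImplicit false

namespace Pool.Agent.K7.H58.EP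

/-- For every prime the `n` eigenvalues of a semisimple class of `GL_n(ℂ)`. -/
abbrev GLData (n : ℕ) := Nat.Primes → Fin n → ℂˣ

/-- For every prime a point `(b₀; b₁, …, b_n)` of the maximal torus of `GSpin_{2n+1}(ℂ)`. -/
abbrev GSpData (n : ℕ) := Nat.Primes → ℂˣ × (Fin n → ℂˣ)

/-- The value `p^{-w}` at `p` of the unramified character `|·|^w`. -/
noncomputable def unr (p : Nat.Primes) (w : ℂ) : ℂˣ :=
  Units.mk0 (((p : ℕ) : ℂ) ^ (-w)) (by
    rw [Ne, Complex.cpow_eq_zero_iff]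
    exact fun h => p.2.ne_zero (by exact_mod_cast h.1))

/-- The data of the representation of `GSp_{2(n+m)}` parabolically induced from `σ |det|^w ⊗ π`, `σ` a
representation of `GL_n` and `π` one of `GSp_{2m}`. -/
noncomputable def ind {n m : ℕ} (α : GLData n) (b : GSpData m) (w : ℂ) : GSpData (n + m) :=
  fun p => ((b p).1, Fin.append (fun i => α p i * unr p w) (b p).2)

/-- **Automorphic systems.**  `gl n` and `gsp n` are sets of families of semisimple classes.  By the theorems named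
below, one obtains an example if `gl n` (`gsp n`) is the set of all families which represent the Satake classes,
at all but finitely many primes, of some automorphic representation of `GL_n` (of `GSp_{2n}`) over `ℚ`;
`GSp_0 = GL_1`. -/
structure AutomorphicSystem where
  /-- Satake data of the automorphic representations of `GL_n` -/
  gl : ∀ n : ℕ, Set (GLData n)
  /-- Satake data of the automorphic representations of `GSp_{2n}` -/
  gsp : ∀ n : ℕ, Set (GSpData n)
  /-- polynomial growth, that is, convergence of the Euler products (Langlands 1971) -/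
  growth_GL : ∀ (n : ℕ), ∀ α ∈ gl n, ∃ c : ℝ, ∀ (p : Nat.Primes) (i : Fin n),
    ‖(α p i : ℂ)‖ ≤ ((p : ℕ) : ℝ) ^ c ∧ ‖((α p i)⁻¹ : ℂˣ).val‖ ≤ ((p : ℕ) : ℝ) ^ c
  /-- polynomial growth, that is, convergence of the Euler products (Langlands 1971) -/
  growth_GSp : ∀ (n : ℕ), ∀ b ∈ gsp n, ∃ c : ℝ, ∀ p : Nat.Primes,
    (‖((b p).1 : ℂ)‖ ≤ ((p : ℕ) : ℝ) ^ c ∧ ‖(((b p).1)⁻¹ : ℂˣ).val‖ ≤ ((p : ℕ) : ℝ) ^ c) ∧
    ∀ i : Fin n, ‖((b p).2 i : ℂ)‖ ≤ ((p : ℕ) : ℝ) ^ c ∧ ‖(((b p).2 i)⁻¹ : ℂˣ).val‖ ≤ ((p : ℕ) : ℝ) ^ c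
  /-- the trivial character of `GL_1` -/
  trivial : (fun _ _ => 1) ∈ gl 1
  /-- the twist `σ ⊗ |det|^w` -/
  twist : ∀ (n : ℕ), ∀ α ∈ gl n, ∀ w : ℂ, (fun p i => α p i * unr p w) ∈ gl n
  /-- the central character of `σ` and its powers are Hecke characters -/
  central : ∀ (n : ℕ), ∀ α ∈ gl n, ∀ k : ℤ, (fun p _ => (∏ i, α p i) ^ k) ∈ gl 1
  /-- the central character of `π` and its powers are Hecke characters -/
  similitude : ∀ (n : ℕ), ∀ b ∈ gsp n, ∀ k : ℤ, (fun p _ => ((b p).1 ^ 2 * ∏ i, (b p).2 i) ^ k) ∈ gl 1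
  /-- `GSp_0 = GL_1` -/
  gsp_zero : ∀ b : GSpData 0, b ∈ gsp 0 ↔ (fun p _ => (b p).1) ∈ gl 1
  /-- the constituents of the representations induced from `σ ⊗ π` are automorphic (Langlands 1979) -/
  induced : ∀ (n m : ℕ), ∀ α ∈ gl n, ∀ b ∈ gsp m, (fun p => ((b p).1, Fin.append (α p) (b p).2)) ∈ gsp (n + m)
  /-- the transfer of `π` to `GL_{2n+1}` by the standard representation is automorphic (Arthur 2013;
  Cai, Friedberg and Kaplan) -/
  standard : ∀ (n : ℕ), ∀ b ∈ gsp n,
    (fun p => (Fin.snoc (Fin.append (b p).2 (fun i => ((b p).2 i)⁻¹)) 1 : Fin (n + n + 1) → ℂˣ)) ∈ gl (n + n + 1)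

/-- The multiplicities of the weights of a representation `τ` of `GL_n(ℂ)`; more generally any finite multiset
of weights invariant under the Weyl group. -/
structure GLRep (n : ℕ) where
  /-- multiplicity of a weight -/
  mult : (Fin n → ℤ) →₀ ℕ
  /-- invariance under the permutations -/
  perm : ∀ (g : Equiv.Perm (Fin n)) (e : Fin n → ℤ), mult (e ∘ g) = mult e

/-- The multiplicities of the weights of a representation `ρ` of `GSpin_{2n+1}(ℂ)`; more generally any finite
multiset of weights invariant under the Weyl group. -/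
structure GSpinRep (n : ℕ) where
  /-- multiplicity of a weight -/
  mult : (ℤ × (Fin n → ℤ)) →₀ ℕ
  /-- invariance under the permutations -/
  perm : ∀ (g : Equiv.Perm (Fin n)) (e₀ : ℤ) (e : Fin n → ℤ), mult (e₀, e ∘ g) = mult (e₀, e)
  /-- invariance under `(b₀; b_i) ↦ (b₀ b_i; b_i⁻¹)` -/
  flip : ∀ (i : Fin n) (e₀ : ℤ) (e : Fin n → ℤ),
    mult (e₀, Function.update e i (e₀ - e i)) = mult (e₀, e)

/-- The spin representation `r` of degree `2^n`: the weights `(1; e)` with `e_i ∈ {0, 1}`. -/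
noncomputable def spin (n : ℕ) : GSpinRep n where
  mult := Finsupp.onFinset
    ((Finset.univ : Finset (Finset (Fin n))).image fun I => ((1 : ℤ), fun i : Fin n => if i ∈ I then (1 : ℤ) else 0))
    (fun l => open Classical in if l.1 = 1 ∧ ∀ i, l.2 i = 0 ∨ l.2 i = 1 then 1 else 0) (by
      classical
      rintro ⟨e₀, e⟩ h
      have h1 : e₀ = 1 ∧ ∀ i, e i = 0 ∨ e i = 1 := by
        by_contra hcon
        exact h (if_neg hcon)
      rw [Finset.mem_image]
      refine ⟨Finset.univ.filter fun i => e i = 1, Finset.mem_univ _, ?_⟩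
      rw [Prod.mk.injEq]
      refine ⟨h1.1.symm, ?_⟩
      funext i
      rcases h1.2 i with h2 | h2 <;> simp [h2])
  perm g e₀ e := by
    classical
    simp only [Finsupp.onFinset_apply, Function.comp_apply]
    have h : (∀ i, e (g i) = 0 ∨ e (g i) = 1) ↔ ∀ i, e i = 0 ∨ e i = 1 :=
      ⟨fun h i => by simpa using h (g.symm i), fun h i => h (g i)⟩
    simp only [h]
  flip i e₀ e := by
    classical
    simp only [Finsupp.onFinset_apply]
    refine if_congr ?_ rfl rfl
    refine and_congr_right fun h0 => ?_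
    subst h0
    constructor
    · intro h k
      by_cases hk : k = i
      · subst hk
        have := h k
        rw [Function.update_self] at this
        omega
      · have := h k
        rwa [Function.update_of_ne hk] at this
    · intro h k
      by_cases hk : k = i
      · subst hk
        rw [Function.update_self]
        have := h k
        omega
      · rw [Function.update_of_ne hk]
        exact h k

/-- The Euler product over the primes `p ∉ S` with the factors `∏_l (1 - l(b(p)) p^{-s})⁻¹`, `l` running through a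
finite multiset `M` of weights `l = (e₀; e₁, …, e_n)`, `l(b) = b₀^{e₀} ∏ b_i^{e_i}`. -/
noncomputable def LW {n : ℕ} (S : Finset Nat.Primes) (b : GSpData n) (M : (ℤ × (Fin n → ℤ)) →₀ ℕ) (s : ℂ) : ℂ :=
  open Classical in
  ∏' p : Nat.Primes, if p ∈ S then 1 else
    ∏ l ∈ M.support,
      ((1 - (((b p).1 ^ l.1 * ∏ i, (b p).2 i ^ l.2 i : ℂˣ) : ℂ) * ((p : ℕ) : ℂ) ^ (-s))⁻¹) ^ M l

/-- The partial L-function `L_S(s, π, ρ) = ∏_{p ∉ S} det(1 - ρ(A_p) p^{-s})⁻¹`. -/
noncomputable def LGSp {n : ℕ} (S : Finset Nat.Primes) (b : GSpData n) (ρ : GSpinRep n) (s : ℂ) : ℂ :=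
  LW S b ρ.mult s

/-- The degree of a weight of `GSpin_{2(n+m)+1}(ℂ)` with respect to the centre of the factor `GL_n(ℂ)` of the Levi
subgroup `GL_n × GSpin_{2m+1}`. -/
def deg {n m : ℕ} (l : ℤ × (Fin (n + m) → ℤ)) : ℤ := ∑ i : Fin n, l.2 (Fin.castAdd m i)

/-- The partial L-function `L_S(s, σ₁ × ⋯ × σ_k × π, τ₁ ⊗ ⋯ ⊗ τ_k ⊗ ρ)` of a representation of the group
`GL_{n₁} × ⋯ × GL_{n_k} × GSp_{2m}`. -/
noncomputable def LProd {k : ℕ} {n : Fin k → ℕ} {m : ℕ} (S : Finset Nat.Primes)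
    (α : ∀ j : Fin k, GLData (n j)) (τ : ∀ j : Fin k, GLRep (n j)) (b : GSpData m) (ρ : GSpinRep m) (s : ℂ) : ℂ :=
  open Classical in
  ∏' p : Nat.Primes, if p ∈ S then 1 else
    ∏ l ∈ (Fintype.piFinset fun j => (τ j).mult.support) ×ˢ ρ.mult.support,
      ((1 - (((∏ j, ∏ i, α j p i ^ l.1 j i) * ((b p).1 ^ l.2.1 * ∏ i, (b p).2 i ^ l.2.2 i) : ℂˣ) : ℂ) *
        ((p : ℕ) : ℂ) ^ (-s))⁻¹) ^ ((∏ j, (τ j).mult (l.1 j)) * ρ.mult l.2)

/-- `f` agrees in a half-plane `Re s > c` with a function that is meromorphic in the whole plane. -/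
def Continues (f : ℂ → ℂ) : Prop :=
  ∃ F : ℂ → ℂ, MeromorphicOn F Set.univ ∧ ∃ c : ℝ, ∀ s : ℂ, c < s.re → F s = f s

/-- The spin L-functions `L_S(s, π, r)` of all `π` on `GSp_{2n}` with `n ∈ 𝒩` continue. -/
def SpinContinues (A : AutomorphicSystem) (𝒩 : Set ℕ) : Prop :=
  ∀ n ∈ 𝒩, 1 ≤ n → ∀ b ∈ A.gsp n, ∀ S : Finset Nat.Primes, Continues (LGSp S b (spin n))

/-- The statement of Q1: for all `n ≥ 1`, all `ρ` and all `π` on `GSp_{2n}`, `L_S(s, π, ρ)` continues. -/
def AllContinue (A : AutomorphicSystem) : Prop :=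
  ∀ n : ℕ, 1 ≤ n → ∀ b ∈ A.gsp n, ∀ (ρ : GSpinRep n) (S : Finset Nat.Primes), Continues (LGSp S b ρ)

/-- The same for the groups `GL_{n₁} × ⋯ × GL_{n_k} × GSp_{2m}`, `k, m ≥ 0`, and all representations
`τ₁ ⊗ ⋯ ⊗ τ_k ⊗ ρ` of their dual groups. -/
def ProductsContinue (A : AutomorphicSystem) : Prop :=
  ∀ (k : ℕ) (n : Fin k → ℕ) (m : ℕ) (α : ∀ j : Fin k, GLData (n j)) (b : GSpData m),
    (∀ j, α j ∈ A.gl (n j)) → b ∈ A.gsp m → ∀ (τ : ∀ j : Fin k, GLRep (n j)) (ρ : GSpinRep m)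
      (S : Finset Nat.Primes), Continues (LProd S α τ b ρ)

end Pool.Agent.K7.H58.EP
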