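import Pool.Agent.K7.H58.EP.Ring
import Pool.Agent.K7.H58.EP.Defs

/-!
# Euler products as elements of the ring of families
-/

set_option autoImplicit false

namespace Pool.Agent.K7.H58.EP

open Complex Filter Topology Set

/-- polynomial growth of a family of numbers -/
def PB (β : Nat.Primes → ℂˣ) : Prop := ∃ c : ℝ, ∀ p : Nat.Primes, ‖(β p : ℂ)‖ ≤ ((p : ℕ) : ℝ) ^ c

/-- the family with one number at every prime -/
noncomputable def br (β : Nat.Primes → ℂˣ) : Fam := fun p => MonoidAlgebra.single (β p) 1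

theorem br_mul (β γ : Nat.Primes → ℂˣ) : br β * br γ = br (fun p => β p * γ p) := by
  funext p
  rw [Pi.mul_apply, br, br, br, MonoidAlgebra.single_mul_single, one_mul]

theorem br_one : br (fun _ => 1) = 1 := rfl

theorem PB.basic {β : Nat.Primes → ℂˣ} (h : PB β) : Basic (br β) := by
  obtain ⟨c, hc⟩ := h
  exact ⟨c, fun p => Or.inr ⟨β p, rfl, hc p⟩⟩

theorem PB.tame {β : Nat.Primes → ℂˣ} (h : PB β) : br β ∈ Tm := h.basic.tame

theorem PB.mul {β γ : Nat.Primes → ℂˣ} (h : PB β) (h' : PB γ) : PB (fun p => β p * γ p) := by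
  obtain ⟨c, hc⟩ := h
  obtain ⟨d, hd⟩ := h'
  refine ⟨c + d, fun p => ?_⟩
  rw [Units.val_mul, norm_mul, Real.rpow_add (p_pos p)]
  exact mul_le_mul (hc p) (hd p) (norm_nonneg _) (Real.rpow_nonneg (p_pos p).le _)

theorem PB.one : PB (fun _ => 1) := ⟨0, fun p => by simp⟩

theorem PB.pow {β : Nat.Primes → ℂˣ} (h : PB β) (n : ℕ) : PB (fun p => β p ^ n) := by
  induction n with
  | zero => simpa using PB.one
  | succ n ih =>
    have := ih.mul h
    simpa only [pow_succ] using this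

theorem PB.prod {ι : Type*} (s : Finset ι) {β : ι → Nat.Primes → ℂˣ} (h : ∀ i ∈ s, PB (β i)) :
    PB (fun p => ∏ i ∈ s, β i p) := by
  classical
  induction s using Finset.induction_on with
  | empty => simpa using PB.one
  | insert a s ha ih =>
    have := (h a (Finset.mem_insert_self _ _)).mul (ih fun i hi => h i (Finset.mem_insert_of_mem hi))
    simpa only [Finset.prod_insert ha] using this

theorem PB.zpow {β : Nat.Primes → ℂˣ} (h : PB β) (h' : PB (fun p => (β p)⁻¹)) (n : ℤ) :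
    PB (fun p => β p ^ n) := by
  cases n with
  | ofNat n => simpa using h.pow n
  | negSucc n =>
    have := h'.pow (n + 1)
    simpa only [zpow_negSucc, inv_pow] using this

theorem PB.unr (w : ℂ) : PB (fun p => EP.unr p w) := ⟨-w.re, fun p => (norm_yy p w).le⟩

theorem br_unr (w : ℂ) : br (fun p => unr p w) = tw w := rfl

theorem tw_tame (w : ℂ) : tw w ∈ Tm := (Basic.tw w).tame

/-- the family restricted to one prime -/
noncomputable def dl (q : Nat.Primes) : Fam := open Classical in fun p => if p = q then 1 else 0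

theorem dl_basic (q : Nat.Primes) : Basic (dl q) := by
  refine ⟨0, fun p => ?_⟩
  unfold dl
  by_cases h : p = q
  · exact Or.inr ⟨1, by rw [if_pos h]; rfl, by simp⟩
  · exact Or.inl (if_neg h)

theorem dl_apply_self (q : Nat.Primes) (x : Fam) : (dl q * x) q = x q := by
  rw [Pi.mul_apply, dl, if_pos rfl, one_mul]

theorem dl_apply_ne {p q : Nat.Primes} (h : p ≠ q) (x : Fam) : (dl q * x) p = 0 := by
  rw [Pi.mul_apply, dl, if_neg h, zero_mul]

theorem tendsto_small {z : ℂˣ} {q : Nat.Primes} : ∃ c : ℝ, ∀ s : ℂ, c < s.re →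
    ‖(z : ℂ) * ((yy q s : ℂˣ) : ℂ)‖ < 1 := by
  have h1 : Tendsto (fun x : ℝ => ‖(z : ℂ)‖ * ((q : ℕ) : ℝ) ^ (-x)) atTop (𝓝 0) := by
    have h2 : Tendsto (fun x : ℝ => ((q : ℕ) : ℝ) ^ (-x)) atTop (𝓝 0) := by
      have h3 := tendsto_rpow_atTop_of_base_lt_one (((q : ℕ) : ℝ)⁻¹) (by
        have := inv_pos.2 (p_pos q); linarith) (inv_lt_one_of_one_lt₀ (one_lt_p q))
      refine h3.congr fun x => ?_
      rw [Real.inv_rpow (p_pos q).le, Real.rpow_neg (p_pos q).le]
    simpa using h2.const_mul ‖(z : ℂ)‖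
  obtain ⟨c, hc⟩ := eventually_atTop.1 (h1.eventually (gt_mem_nhds (zero_lt_one (α := ℝ))))
  refine ⟨c, fun s hs => ?_⟩
  rw [norm_mul, norm_yy]
  exact hc s.re hs.le

theorem one_sub_ne {w : ℂ} (hw : ‖w‖ < 1) : 1 - w ≠ 0 := fun h => by
  have h1 : w = 1 := (sub_eq_zero.1 h).symm
  rw [h1] at hw
  simp at hw

theorem exp_neg_log {w : ℂ} (hw : ‖w‖ < 1) : Complex.exp (-Complex.log (1 - w)) = (1 - w)⁻¹ := by
  rw [Complex.exp_neg, Complex.exp_log (one_sub_ne hw)]

theorem dl_good (q : Nat.Primes) {x : Fam} (hx : x ∈ Tm) : dl q * x ∈ Good := by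
  rw [tame_iff] at hx
  induction hx using AddSubgroup.closure_induction with
  | mem x hx =>
    refine ⟨((dl_basic q).mul hx).tame, ?_⟩
    have hL : ∀ s : ℂ, Lam (dl q * x) s = ell ((yy q s : ℂˣ) : ℂ) (x q) := by
      intro s
      unfold Lam
      rw [tsum_eq_single q fun p hp => by rw [dl_apply_ne hp, map_zero], dl_apply_self]
    obtain ⟨c, hc⟩ := hx
    rcases hc q with h1 | ⟨z, h1, _⟩
    · refine ⟨fun _ => 1, MeromorphicOn.const 1, 0, fun s _ => ?_⟩
      rw [hL, h1, map_zero, Complex.exp_zero]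
    · obtain ⟨d, hd⟩ := tendsto_small (z := z) (q := q)
      refine ⟨fun s => (1 - (z : ℂ) * ((yy q s : ℂˣ) : ℂ))⁻¹, ?_, d, fun s hs => ?_⟩
      · intro s _
        have h5 : Differentiable ℂ (fun s : ℂ => 1 - (z : ℂ) * ((yy q s : ℂˣ) : ℂ)) := by
          simp only [coe_yy]
          intro s
          exact ((((differentiableAt_id.neg).const_cpow (Or.inl (pc_ne q)))).const_mul _).const_sub _
        exact (h5.analyticAt s).meromorphicAt.inv
      · rw [hL, h1, ell_single, Int.cast_one, one_mul, exp_neg_log (hd s hs)]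
  | zero => rw [mul_zero]; exact Good.zero_mem
  | add x y _ _ hx hy => rw [mul_add]; exact Good.add_mem hx hy
  | neg x _ hx => rw [mul_neg]; exact Good.neg_mem hx

/-- removal of the primes in `S` -/
noncomputable def cut (S : Finset Nat.Primes) : Fam := open Classical in fun p => if p ∈ S then 0 else 1

theorem cut_basic (S : Finset Nat.Primes) : Basic (cut S) := by
  refine ⟨0, fun p => ?_⟩
  unfold cut
  by_cases h : p ∈ S
  · exact Or.inl (if_pos h)
  · exact Or.inr ⟨1, by rw [if_neg h]; rfl, by simp⟩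

theorem cut_add (S : Finset Nat.Primes) : cut S + ∑ q ∈ S, dl q = 1 := by
  classical
  funext p
  rw [Pi.add_apply, Finset.sum_apply]
  simp only [cut, dl]
  rw [Finset.sum_ite_eq]
  by_cases h : p ∈ S
  · simp [h]
  · simp [h]

theorem cut_good {S : Finset Nat.Primes} {x : Fam} (hx : x ∈ Tm) : cut S * x ∈ Good ↔ x ∈ Good := by
  have h1 : (∑ q ∈ S, dl q) * x ∈ Good := by
    rw [Finset.sum_mul]
    exact Good.sum_mem fun q _ => dl_good q hx
  have h2 : x = cut S * x + (∑ q ∈ S, dl q) * x := by rw [← add_mul, cut_add, one_mul]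
  constructor
  · intro h
    rw [h2]
    exact Good.add_mem h h1
  · intro h
    have h3 : cut S * x = x - (∑ q ∈ S, dl q) * x := by rw [eq_sub_iff_add_eq, ← h2]
    rw [h3]
    exact Good.sub_mem h h1

/-- the element attached to a finite set of families with multiplicities -/
noncomputable def XX {ι : Type*} (T : Finset ι) (β : ι → Nat.Primes → ℂˣ) (c : ι → ℕ) : Fam :=
  ∑ l ∈ T, (c l) • br (β l)

/-- its Euler product -/
noncomputable def Lfin {ι : Type*} (S : Finset Nat.Primes) (T : Finset ι) (β : ι → Nat.Primes → ℂˣ)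
    (c : ι → ℕ) (s : ℂ) : ℂ :=
  open Classical in
  ∏' p : Nat.Primes, if p ∈ S then 1 else
    ∏ l ∈ T, ((1 - (β l p : ℂ) * ((p : ℕ) : ℂ) ^ (-s))⁻¹) ^ c l

theorem XX_tame {ι : Type*} {T : Finset ι} {β : ι → Nat.Primes → ℂˣ} {c : ι → ℕ}
    (h : ∀ l ∈ T, PB (β l)) : XX T β c ∈ Tm :=
  Tm.sum_mem fun l hl => Tm.nsmul_mem (h l hl).tame _

theorem small_of_PB {β : Nat.Primes → ℂˣ} (h : PB β) : ∃ c : ℝ, ∀ s : ℂ, c < s.re → ∀ p : Nat.Primes,
    ‖(β p : ℂ) * ((yy p s : ℂˣ) : ℂ)‖ < 1 := by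
  obtain ⟨c, hc⟩ := h
  refine ⟨c, fun s hs p => ?_⟩
  rw [norm_mul, norm_yy]
  calc ‖(β p : ℂ)‖ * ((p : ℕ) : ℝ) ^ (-s.re) ≤ ((p : ℕ) : ℝ) ^ c * ((p : ℕ) : ℝ) ^ (-s.re) :=
        mul_le_mul_of_nonneg_right (hc p) (Real.rpow_nonneg (p_pos p).le _)
    _ = ((p : ℕ) : ℝ) ^ (c - s.re) := by rw [← Real.rpow_add (p_pos p)]; ring_nf
    _ < 1 := Real.rpow_lt_one_of_one_lt_of_neg (one_lt_p p) (by linarith)

theorem small_of_PB_finset {ι : Type*} {T : Finset ι} {β : ι → Nat.Primes → ℂˣ} (h : ∀ l ∈ T, PB (β l)) :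
    ∃ c : ℝ, ∀ s : ℂ, c < s.re → ∀ l ∈ T, ∀ p : Nat.Primes, ‖(β l p : ℂ) * ((yy p s : ℂˣ) : ℂ)‖ < 1 := by
  classical
  induction T using Finset.induction_on with
  | empty => exact ⟨0, by simp⟩
  | insert a t ha ih =>
    obtain ⟨c, hc⟩ := small_of_PB (h a (Finset.mem_insert_self _ _))
    obtain ⟨d, hd⟩ := ih fun l hl => h l (Finset.mem_insert_of_mem hl)
    refine ⟨max c d, fun s hs l hl => ?_⟩
    rcases Finset.mem_insert.1 hl with rfl | hl
    · exact hc s (lt_of_le_of_lt (le_max_left _ _) hs)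
    · exact hd s (lt_of_le_of_lt (le_max_right _ _) hs) l hl

theorem ell_sum {ι : Type*} (T : Finset ι) (z : ι → ℂˣ) (c : ι → ℕ) (y : ℂ) :
    ell y (∑ l ∈ T, (c l) • MonoidAlgebra.single (z l) (1 : ℤ)) =
      ∑ l ∈ T, (c l : ℂ) * (-Complex.log (1 - (z l : ℂ) * y)) := by
  rw [map_sum]
  refine Finset.sum_congr rfl fun l _ => ?_
  rw [map_nsmul, ell_single, Int.cast_one, one_mul, nsmul_eq_mul]

/-- the Euler product is the exponential of `Lam` -/
theorem exp_Lam {ι : Type*} {S : Finset Nat.Primes} {T : Finset ι} {β : ι → Nat.Primes → ℂˣ} {c : ι → ℕ}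
    (h : ∀ l ∈ T, PB (β l)) : ∃ d : ℝ, ∀ s : ℂ, d < s.re →
      Lfin S T β c s = Complex.exp (Lam (cut S * XX T β c) s) := by
  classical
  obtain ⟨a, ha⟩ := exists_an (Tm.mul_mem (cut_basic S).tame (XX_tame (c := c) h))
  obtain ⟨b, hb⟩ := small_of_PB_finset h
  refine ⟨max a b, fun s hs => ?_⟩
  have hs1 := lt_of_le_of_lt (le_max_left _ _) hs
  have hs2 := lt_of_le_of_lt (le_max_right _ _) hs
  have h1 := (ha.1 s hs1).hasSum.cexp.tprod_eq
  unfold Lam
  rw [← h1]
  unfold Lfin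
  refine tprod_congr fun p => ?_
  simp only [Function.comp_apply, Pi.mul_apply]
  by_cases hp : p ∈ S
  · rw [if_pos hp]
    simp [cut, hp]
  · rw [if_neg hp]
    have h2 : cut S p * XX T β c p = ∑ l ∈ T, (c l) • MonoidAlgebra.single (β l p) (1 : ℤ) := by
      have h3 : cut S p = 1 := if_neg hp
      rw [h3, one_mul, XX, Finset.sum_apply]
      rfl
    rw [h2, ell_sum, Complex.exp_sum]
    refine Finset.prod_congr rfl fun l hl => ?_
    rw [Complex.exp_nat_mul, exp_neg_log (hb s hs2 l hl p)]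
    rfl

/-- **The continuation of the Euler product is membership in `Good`.** -/
theorem continues_iff {ι : Type*} {S : Finset Nat.Primes} {T : Finset ι} {β : ι → Nat.Primes → ℂˣ}
    {c : ι → ℕ} (h : ∀ l ∈ T, PB (β l)) : Continues (Lfin S T β c) ↔ XX T β c ∈ Good := by
  have ht := XX_tame (c := c) h
  obtain ⟨d, hd⟩ := exp_Lam (S := S) (c := c) h
  rw [← cut_good (S := S) ht]
  constructor
  · rintro ⟨F, hF, a, ha⟩
    refine ⟨Tm.mul_mem (cut_basic S).tame ht, F, hF, max a d, fun s hs => ?_⟩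
    rw [ha s (lt_of_le_of_lt (le_max_left _ _) hs), hd s (lt_of_le_of_lt (le_max_right _ _) hs)]
  · rintro ⟨_, F, hF, a, ha⟩
    refine ⟨F, hF, max a d, fun s hs => ?_⟩
    rw [ha s (lt_of_le_of_lt (le_max_left _ _) hs), hd s (lt_of_le_of_lt (le_max_right _ _) hs)]

end Pool.Agent.K7.H58.EP
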