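import Pool.Agent.K7.H58.EP.Main

/-!
# The equivalences and the zero-one law
-/

set_option autoImplicit false

namespace Pool.Agent.K7.H58.EP

open Complex Filter Topology Set

variable {n m : ℕ} {A : AutomorphicSystem}

theorem smul_br_prod {ι : Type*} (s : Finset ι) (c : ι → ℕ) (β : ι → Nat.Primes → ℂˣ) :
    ∏ i ∈ s, (c i • br (β i)) = (∏ i ∈ s, c i) • br (fun p => ∏ i ∈ s, β i p) := by
  classical
  induction s using Finset.induction_on with
  | empty => simp [br_one]
  | insert a s ha ih =>
    rw [Finset.prod_insert ha, Finset.prod_insert ha, ih, smul_mul_smul_comm, br_mul]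
    simp only [Finset.prod_insert ha]

theorem XProd_eq {k : ℕ} {n : Fin k → ℕ} (α : ∀ j : Fin k, GLData (n j)) (τ : ∀ j : Fin k, GLRep (n j))
    (b : GSpData m) (ρ : GSpinRep m) :
    XX ((Fintype.piFinset fun j => (τ j).mult.support) ×ˢ ρ.mult.support)
      (fun l p => (∏ j, ∏ i, α j p i ^ l.1 j i) * ((b p).1 ^ l.2.1 * ∏ i, (b p).2 i ^ l.2.2 i))
      (fun l => (∏ j, (τ j).mult (l.1 j)) * ρ.mult l.2) = (∏ j, XG (α j) (τ j)) * XS b ρ := by
  unfold XG XS XW XX
  rw [Finset.prod_univ_sum, Finset.sum_mul_sum, Finset.sum_product]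
  refine Finset.sum_congr rfl fun l _ => Finset.sum_congr rfl fun l' _ => ?_
  rw [smul_br_prod, smul_mul_smul_comm, br_mul]

theorem continues_LProd {k : ℕ} {n : Fin k → ℕ} {α : ∀ j : Fin k, GLData (n j)}
    (hα : ∀ j, α j ∈ A.gl (n j)) (τ : ∀ j : Fin k, GLRep (n j))
    {b : GSpData m} (hb : b ∈ A.gsp m) (ρ : GSpinRep m) (S : Finset Nat.Primes) :
    Continues (LProd S α τ b ρ) ↔ (∏ j, XG (α j) (τ j)) * XS b ρ ∈ Good := by
  rw [← XProd_eq]
  have h := continues_iff (S := S) (T := (Fintype.piFinset fun j => (τ j).mult.support) ×ˢ ρ.mult.support)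
    (β := fun l p => (∏ j, ∏ i, α j p i ^ l.1 j i) * ((b p).1 ^ l.2.1 * ∏ i, (b p).2 i ^ l.2.2 i))
    (c := fun l => (∏ j, (τ j).mult (l.1 j)) * ρ.mult l.2)
    (fun l _ => (PB.prod _ fun j _ => PB_gl (hα j) (l.1 j)).mul (PB_gsp hb l.2))
  exact h

theorem tfae {𝒩 : Set ℕ} (h𝒩 : 𝒩.Infinite) :
    List.TFAE [SpinContinues A 𝒩, AllContinue A, ProductsContinue A] := by
  tfae_have 1 → 3 := by
    intro h
    have hgood : SpinGood A 𝒩 := by
      intro n hn h1 b hb
      rw [← XS_spin]
      exact (continues_XS hb (spin n) ∅).1 (h n hn h1 b hb ∅)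
    intro k n m α b hα hb τ ρ S
    rw [continues_LProd hα τ hb ρ S]
    obtain ⟨x, hx, y, hy, hxy⟩ := XS_mem hb ρ
    have hz : ∏ j, XG (α j) (τ j) ∈ KK A := (KK A).prod_mem fun j _ => XG_mem (hα j) (τ j)
    rw [hxy, mul_add]
    refine Good.add_mem (KK_good h𝒩 hgood ((KK A).mul_mem hz hx)) ?_
    have h2 := spin_mul_KK h𝒩 hgood ((KK A).mul_mem hz hy) hb
    have h3 : (∏ j, XG (α j) (τ j)) * (spF b * y) = spF b * ((∏ j, XG (α j) (τ j)) * y) := by ring
    rw [h3]
    exact h2
  tfae_have 3 → 2 := by
    intro h n _ b hb ρ S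
    have h1 := h 0 (fun j => j.elim0) n (fun j => j.elim0) b (fun j => j.elim0) hb (fun j => j.elim0) ρ S
    rw [continues_LProd (fun j => j.elim0) _ hb ρ S] at h1
    rw [continues_XS hb ρ S]
    simpa using h1
  tfae_have 2 → 1 := by
    intro h n _ h1 b hb S
    exact h n h1 b hb (spin n) S
  tfae_finish

theorem unr_zpow (p : Nat.Primes) (w : ℂ) (k : ℤ) : unr p w ^ k = unr p (k * w) := by
  apply Units.ext
  rw [Units.val_zpow_eq_zpow_val]
  change (((p : ℕ) : ℂ) ^ (-w)) ^ k = ((p : ℕ) : ℂ) ^ (-((k : ℂ) * w))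
  rw [← Complex.cpow_int_mul]
  congr 1
  ring

theorem unr_prod {ι : Type*} (s : Finset ι) (p : Nat.Primes) (w : ℂ) (f : ι → ℤ) :
    ∏ i ∈ s, unr p w ^ f i = unr p ((∑ i ∈ s, f i : ℤ) * w) := by
  classical
  rw [← unr_zpow]
  induction s using Finset.induction_on with
  | empty => simp
  | insert a s ha ih => rw [Finset.prod_insert ha, Finset.sum_insert ha, zpow_add, ih]

theorem tw_mul_good {x : Fam} (hx : x ∈ Good) (w : ℂ) : tw w * x ∈ Good := by
  rw [mul_comm]
  exact good_tw hx w

/-- a family with `x - T^δ x` good, `Re δ > 0`, is good -/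
theorem good_of_diff {x : Fam} (hx : x ∈ Tm) {δ : ℂ} (hδ : 0 < δ.re) (h : x - x * tw δ ∈ Good) : x ∈ Good := by
  obtain ⟨c, hc⟩ := exists_an hx
  refine ⟨hx, ?_⟩
  have key := glue (f := fun s => Complex.exp (Lam x s)) (c := c) hc.2.cexp ?_
  · obtain ⟨F, hF, hF'⟩ := key
    exact ⟨F, hF, c, hF'⟩
  intro M
  -- `x - x T^{k δ}` is good for all `k`
  have hk : ∀ k : ℕ, x - x * tw (k * δ) ∈ Good := by
    intro k
    induction k with
    | zero => simp [tw_zero, Good.zero_mem]
    | succ k ih =>
      have h1 : x - x * tw ((k + 1 : ℕ) * δ) = (x - x * tw (k * δ)) + (x - x * tw δ) * tw (k * δ) := by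
        have h2 : tw ((k + 1 : ℕ) * δ) = tw δ * tw (k * δ) := by
          rw [← tw_add]
          congr 1
          push_cast
          ring
        rw [h2]
        ring
      rw [h1]
      exact Good.add_mem ih (good_tw h _)
  obtain ⟨k, hk0⟩ := exists_nat_gt ((M + |c|) / δ.re)
  rw [div_lt_iff₀ hδ] at hk0
  obtain ⟨_, F, hF, d, hd⟩ := hk k
  have hre : ∀ s : ℂ, -(M : ℝ) < s.re → c < (s + k * δ).re := by
    intro s hs
    have h1 : (s + k * δ).re = s.re + k * δ.re := by simp
    rw [h1]
    have := le_abs_self c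
    linarith
  have hH : DifferentiableOn ℂ (fun s => Complex.exp (Lam x (s + k * δ))) {s : ℂ | -(M : ℝ) < s.re} := by
    refine DifferentiableOn.cexp ?_
    exact hc.2.comp (f := fun s : ℂ => s + k * δ) ((differentiable_id.add_const _).differentiableOn)
      (fun s hs => hre s hs)
  refine ⟨fun s => F s * Complex.exp (Lam x (s + k * δ)), ?_, max (max c (-(M : ℝ))) d, fun s hs => ?_⟩
  · intro s hs
    exact (hF s (mem_univ _)).mul ((hH.analyticOnNhd (isOpen_hp _)) s hs).meromorphicAt
  · have h1 : c < s.re := lt_of_le_of_lt ((le_max_left _ _).trans (le_max_left _ _)) hs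
    have h2 : -(M : ℝ) < s.re := lt_of_le_of_lt ((le_max_right _ _).trans (le_max_left _ _)) hs
    have h3 : d < s.re := lt_of_le_of_lt (le_max_right _ _) hs
    change F s * Complex.exp (Lam x (s + k * δ)) = Complex.exp (Lam x s)
    have h4 : Summable fun p : Nat.Primes => ell ((yy p s : ℂˣ) : ℂ) ((x * tw (k * δ)) p) :=
      summable_tw (hc.1 _ (hre s h2))
    have h5 : Lam (x - x * tw (k * δ)) s = Lam x s - Lam x (s + k * δ) := by
      have h6 : Summable fun p : Nat.Primes => ell ((yy p s : ℂˣ) : ℂ) ((-(x * tw (k * δ))) p) := by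
        refine h4.neg.congr fun p => ?_
        rw [Pi.neg_apply, map_neg]
      rw [sub_eq_add_neg, Lam_add (hc.1 s h1) h6, Lam_neg, Lam_tw, sub_eq_add_neg]
    rw [hd s h3, h5, ← Complex.exp_add, sub_add_cancel]

theorem good_of_tw_sub {x : Fam} (hx : x ∈ Tm) {w z : ℂ} (hwz : w.re ≠ z.re) (h : (tw w - tw z) * x ∈ Good) :
    x ∈ Good := by
  rcases lt_or_gt_of_ne hwz with h1 | h1
  · refine good_of_diff hx (δ := z - w) (by rw [Complex.sub_re]; linarith) ?_
    have h2 := good_tw h (-w)
    have h3 : (tw w - tw z) * x * tw (-w) = x - x * tw (z - w) := by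
      have h4 : tw w * tw (-w) = 1 := by rw [← tw_add, add_neg_cancel, tw_zero]
      have h5 : tw (z - w) = tw z * tw (-w) := by rw [← tw_add, sub_eq_add_neg]
      rw [h5]
      linear_combination x * h4
    rwa [h3] at h2
  · refine good_of_diff hx (δ := w - z) (by rw [Complex.sub_re]; linarith) ?_
    have h2 := Good.neg_mem (good_tw h (-z))
    have h3 : -((tw w - tw z) * x * tw (-z)) = x - x * tw (w - z) := by
      have h4 : tw z * tw (-z) = 1 := by rw [← tw_add, add_neg_cancel, tw_zero]
      have h5 : tw (w - z) = tw w * tw (-z) := by rw [← tw_add, sub_eq_add_neg]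
      rw [h5]
      linear_combination x * h4
    rwa [h3] at h2

/-- the ring of tame families -/
abbrev RT := ↥Tm

/-- the good tame families -/
noncomputable def GT : AddSubgroup RT := Good.comap Tm.subtype.toAddMonoidHom

theorem mem_GT {x : RT} : x ∈ GT ↔ (x : Fam) ∈ Good := Iff.rfl

/-- the twists -/
noncomputable def tT (w : ℂ) : RT := ⟨tw w, tw_tame w⟩

open Polynomial in
/-- **Isolation from finitely many twists with different real parts.** -/
theorem isolate_poly : ∀ (d : ℕ) (P : RT[X]), P.degree < d → ∀ w : Fin d → ℂ,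
    Function.Injective (fun i => (w i).re) → (∀ i, P.eval (tT (w i)) ∈ GT) → ∀ j, P.coeff j ∈ GT := by
  intro d
  induction d with
  | zero =>
    intro P hP w _ _ j
    have h0 : P = 0 := by
      rw [← Polynomial.degree_eq_bot]
      by_contra h1
      have h2 : (0 : WithBot ℕ) ≤ P.degree := by
        rw [Polynomial.degree_eq_natDegree (fun h => h1 (by rw [h, Polynomial.degree_zero]))]
        exact_mod_cast Nat.zero_le _
      exact absurd (lt_of_le_of_lt h2 hP) (by simp)
    rw [h0, Polynomial.coeff_zero]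
    exact GT.zero_mem
  | succ d ih =>
    intro P hP w hw h j
    set t := tT (w 0) with ht
    set Q := P /ₘ (X - C t) with hQ
    have hPQ : P = C (P.eval t) + (X - C t) * Q := by
      have h1 := Polynomial.modByMonic_add_div P (X - C t)
      rw [Polynomial.modByMonic_X_sub_C_eq_C_eval] at h1
      exact h1.symm
    have hQd : Q.degree < d := by
      by_cases hP0 : P.degree < 1
      · have hQ0 : Q = 0 := by
          rw [hQ, Polynomial.divByMonic_eq_zero_iff (monic_X_sub_C t)]
          rw [Polynomial.degree_X_sub_C]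
          exact hP0
        rw [hQ0, Polynomial.degree_zero]
        exact WithBot.bot_lt_coe _
      · push Not at hP0
        have h1 := Polynomial.degree_add_divByMonic (p := P) (monic_X_sub_C t)
          (by rw [Polynomial.degree_X_sub_C]; exact hP0)
        rw [Polynomial.degree_X_sub_C] at h1
        rw [← h1] at hP
        have h2 : Q.degree ≠ ⊥ := by
          intro h3
          rw [← hQ, h3] at h1
          rw [← h1] at hP0
          simp at hP0
        rw [← hQ] at hP
        rw [Polynomial.degree_eq_natDegree (fun h => h2 (by rw [h, Polynomial.degree_zero]))] at hP ⊢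
        have h3 : 1 + Q.natDegree < d + 1 := by exact_mod_cast hP
        exact_mod_cast (by omega : Q.natDegree < d)
    have hQi : ∀ i : Fin d, Q.eval (tT (w i.succ)) ∈ GT := by
      intro i
      have h1 : P.eval (tT (w i.succ)) = P.eval t + (tT (w i.succ) - t) * Q.eval (tT (w i.succ)) := by
        conv_lhs => rw [hPQ]
        simp
      have h2 : (tT (w i.succ) - t) * Q.eval (tT (w i.succ)) ∈ GT := by
        have h3 := GT.sub_mem (h i.succ) (h 0)
        rw [h1] at h3
        simpa [ht] using h3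
      refine good_of_tw_sub (w := w i.succ) (z := w 0) (Q.eval (tT (w i.succ))).2 ?_ h2
      intro h4
      have := hw h4
      exact absurd this (Fin.succ_ne_zero i)
    have hQc := ih Q hQd (fun i => w i.succ) (fun a b hab => Fin.succ_injective _ (hw hab)) hQi
    rw [hPQ, Polynomial.coeff_add, sub_mul, Polynomial.coeff_sub, Polynomial.coeff_C_mul]
    refine GT.add_mem ?_ (GT.sub_mem ?_ ?_)
    · rw [Polynomial.coeff_C]
      split_ifs
      · exact h 0
      · exact GT.zero_mem
    · cases j with
      | zero => rw [Polynomial.coeff_X_mul_zero]; exact GT.zero_mem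
      | succ j => rw [Polynomial.coeff_X_mul]; exact hQc j
    · exact tw_mul_good (hQc j) (w 0)

/-- isolation for finite sums indexed by integers in an interval of length `d` -/
theorem isolate_int {d : ℕ} {a : ℤ} {J : Finset ℤ} (hJ : ∀ j ∈ J, a ≤ j ∧ j < a + d) {x : ℤ → Fam}
    (hx : ∀ j ∈ J, x j ∈ Tm) {w : Fin d → ℂ} (hw : Function.Injective fun i => (w i).re)
    (h : ∀ i, ∑ j ∈ J, x j * tw (j * w i) ∈ Good) : ∀ j ∈ J, x j ∈ Good := by
  classical
  intro j₀ hj₀
  set y : ℤ → RT := fun j => if hj : j ∈ J then ⟨x j, hx j hj⟩ else 0 with hy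
  have hyx : ∀ j ∈ J, (y j : Fam) = x j := by
    intro j hj
    simp only [hy, dif_pos hj]
  set P : Polynomial RT := ∑ j ∈ J, Polynomial.monomial (j - a).toNat (y j) with hP
  have hPc : ∀ j ∈ J, P.coeff (j - a).toNat = y j := by
    intro j hj
    rw [hP, Polynomial.finsetSum_coeff]
    simp only [Polynomial.coeff_monomial]
    rw [Finset.sum_eq_single j]
    · rw [if_pos rfl]
    · intro i hi hij
      rw [if_neg]
      intro h1
      have h2 := hJ i hi
      have h3 := hJ j hj
      omega
    · intro h1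
      exact absurd hj h1
  have hPd : P.degree < d := by
    rw [Polynomial.degree_lt_iff_coeff_zero]
    intro k hk
    rw [hP, Polynomial.finsetSum_coeff]
    refine Finset.sum_eq_zero fun j hj => ?_
    rw [Polynomial.coeff_monomial, if_neg]
    have h2 := hJ j hj
    omega
  have hPe : ∀ i, P.eval (tT (w i)) ∈ GT := by
    intro i
    rw [mem_GT]
    have h1 : ((P.eval (tT (w i)) : RT) : Fam) = (∑ j ∈ J, x j * tw (j * w i)) * tw (-a * w i) := by
      rw [hP, Polynomial.eval_finsetSum, Finset.sum_mul]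
      rw [AddSubmonoidClass.coe_finsetSum]
      refine Finset.sum_congr rfl fun j hj => ?_
      rw [Polynomial.eval_monomial]
      push_cast
      rw [hyx j hj, mul_assoc, ← tw_add]
      congr 1
      change tw (w i) ^ (j - a).toNat = _
      rw [tw_pow]
      congr 1
      have h2 : (((j - a).toNat : ℕ) : ℂ) = (j : ℂ) - a := by
        have h3 : (((j - a).toNat : ℕ) : ℤ) = j - a := Int.toNat_of_nonneg (by have := hJ j hj; omega)
        exact_mod_cast congrArg (Int.cast (R := ℂ)) h3
      rw [h2]
      ring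
    rw [h1]
    exact good_tw (h i) _
  have h1 := isolate_poly d P hPd w hw hPe (j₀ - a).toNat
  rw [hPc j₀ hj₀, mem_GT, hyx j₀ hj₀] at h1
  exact h1

/-- the family of a multiset of weights on the induced representations -/
theorem XW_ind (α : GLData n) (b : GSpData m) (M : (ℤ × (Fin (n + m) → ℤ)) →₀ ℕ) (w : ℂ) :
    XW (ind α b w) M = ∑ j ∈ M.support.image deg, XW (ind α b 0) (M.filter fun l => deg l = j) * tw (j * w) := by
  classical
  have h0 : ∀ j : ℤ, XW (ind α b 0) (M.filter fun l => deg l = j) =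
      ∑ l ∈ M.support with deg l = j, (M l) • br (fun p => ((ind α b 0) p).1 ^ l.1 *
        ∏ i, ((ind α b 0) p).2 i ^ l.2 i) := by
    intro j
    unfold XW XX
    rw [Finsupp.support_filter]
    refine Finset.sum_congr (by ext; simp) fun l hl => ?_
    rw [Finsupp.filter_apply_pos]
    exact (Finset.mem_filter.1 hl).2
  simp only [h0]
  unfold XW XX
  rw [← Finset.sum_fiberwise_of_maps_to (s := M.support) (t := M.support.image deg)
    (g := deg) (fun l hl => Finset.mem_image_of_mem _ hl)]
  refine Finset.sum_congr rfl fun j _ => ?_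
  rw [Finset.sum_mul]
  refine Finset.sum_congr rfl fun l hl => ?_
  obtain ⟨_, rfl⟩ := Finset.mem_filter.1 hl
  rw [smul_mul_assoc, ← br_unr, br_mul]
  congr 2
  funext p
  have hu : unr p 0 = 1 := yy_zero p
  simp only [Fin.prod_univ_add, ind, Fin.append_left, Fin.append_right, mul_zpow, Finset.prod_mul_distrib,
    hu, mul_one]
  rw [unr_prod]
  simp only [deg]
  ac_rfl

/-- **Rigidity of the continuation in the families of induced representations.** -/
theorem rigidity {α : GLData n} (hα : α ∈ A.gl n) {b : GSpData m} (hb : b ∈ A.gsp m)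
    (M : (ℤ × (Fin (n + m) → ℤ)) →₀ ℕ) (S : Finset Nat.Primes) {d : ℕ} {a : ℤ}
    (hM : ∀ l ∈ M.support, a ≤ deg l ∧ deg l < a + d) {w : Fin d → ℂ}
    (hw : Function.Injective fun i => (w i).re) (h : ∀ i, Continues (LW S (ind α b (w i)) M)) :
    (∀ z : ℂ, Continues (LW S (ind α b z) M)) ∧
      ∀ j : ℤ, Continues (LW S (ind α b 0) (M.filter fun l => deg l = j)) := by
  classical
  have hind : ∀ z : ℂ, ind α b z ∈ A.gsp (n + m) := fun z => ind_mem hα hb z
  have h1 : ∀ j ∈ M.support.image deg, XW (ind α b 0) (M.filter fun l => deg l = j) ∈ Good := by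
    refine isolate_int (d := d) (a := a) ?_ ?_ hw ?_
    · intro j hj
      obtain ⟨l, hl, rfl⟩ := Finset.mem_image.1 hj
      exact hM l hl
    · intro j _
      exact XX_tame fun l _ => PB_gsp (hind 0) l
    · intro i
      rw [← XW_ind]
      exact (continues_XW (hind (w i)) M S).1 (h i)
  refine ⟨fun z => ?_, fun j => ?_⟩
  · rw [continues_XW (hind z) M S, XW_ind]
    exact Good.sum_mem fun j hj => good_tw (h1 j hj) _
  · rw [continues_XW (hind 0) _ S]
    by_cases hj : j ∈ M.support.image deg
    · exact h1 j hj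
    · have h2 : (M.filter fun l => deg l = j) = 0 := by
        ext l
        rw [Finsupp.filter_apply]
        split_ifs with h3
        · by_contra h4
          exact hj (Finset.mem_image.2 ⟨l, Finsupp.mem_support_iff.2 h4, h3⟩)
        · rfl
      rw [h2]
      unfold XW XX
      simp [Good.zero_mem]

end Pool.Agent.K7.H58.EP
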