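import Mathlib

/-!
# Gluing meromorphic continuations to larger and larger half-planes
-/

set_option autoImplicit false

namespace Pool.Agent.K7.H58.EP

open Complex Filter Topology Set

theorem isOpen_hp (c : ℝ) : IsOpen {s : ℂ | c < s.re} := isOpen_lt continuous_const Complex.continuous_re

theorem isConnected_hp (c : ℝ) : IsConnected {s : ℂ | c < s.re} :=
  ⟨⟨((c + 1 : ℝ) : ℂ), by simp⟩, (convex_halfSpace_re_gt c).isPreconnected⟩

theorem hp_mono {a b : ℝ} (h : a ≤ b) : {s : ℂ | b < s.re} ⊆ {s : ℂ | a < s.re} := fun _ hs =>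
  lt_of_le_of_lt h hs

/-- two functions meromorphic on a half-plane which agree far to the right agree near every point -/
theorem eq_near {a d : ℝ} {f g : ℂ → ℂ} (hf : MeromorphicOn f {s | a < s.re})
    (hg : MeromorphicOn g {s | a < s.re}) (h : ∀ s : ℂ, d < s.re → f s = g s) {u : ℂ} (hu : a < u.re) :
    f =ᶠ[𝓝[≠] u] g := by
  have hfg : MeromorphicOn (f - g) {s | a < s.re} := hf.sub hg
  have htop : ∀ v : {s : ℂ | a < s.re}, meromorphicOrderAt (f - g) v = ⊤ := by
    by_contra hcon
    push Not at hcon
    have h1 := (hfg.exists_meromorphicOrderAt_ne_top_iff_forall (isConnected_hp a)).1 hcon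
    set r : ℝ := max a d + 1 with hr
    have hra : a < r := by have := le_max_left a d; linarith
    have hrd : d < r := by have := le_max_right a d; linarith
    have h2 := h1 ⟨((r : ℝ) : ℂ), by simpa using hra⟩
    apply h2
    rw [meromorphicOrderAt_eq_top_iff]
    have h3 : ∀ᶠ z in 𝓝 ((r : ℝ) : ℂ), d < z.re :=
      (isOpen_hp d).mem_nhds (by simpa using hrd)
    filter_upwards [h3.filter_mono nhdsWithin_le_nhds] with z hz
    simp [h z hz]
  have h4 := htop ⟨u, hu⟩
  rw [meromorphicOrderAt_eq_top_iff] at h4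
  filter_upwards [h4] with z hz
  exact sub_eq_zero.1 hz

/-- **Gluing.** -/
theorem glue {f : ℂ → ℂ} {c : ℝ} (hf : DifferentiableOn ℂ f {s | c < s.re})
    (h : ∀ M : ℕ, ∃ G : ℂ → ℂ, MeromorphicOn G {s | -(M : ℝ) < s.re} ∧
      ∃ d : ℝ, ∀ s : ℂ, d < s.re → G s = f s) :
    ∃ F : ℂ → ℂ, MeromorphicOn F univ ∧ ∀ s : ℂ, c < s.re → F s = f s := by
  classical
  choose G hG d hd using h
  have hfm : MeromorphicOn f {s | c < s.re} := fun s hs =>
    ((hf.analyticOnNhd (isOpen_hp c)) s hs).meromorphicAt
  set k : ℂ → ℕ := fun s => ⌈-s.re⌉₊ + 1 with hk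
  have hkre : ∀ s : ℂ, -(k s : ℝ) + 1 ≤ s.re := by
    intro s
    have := Nat.le_ceil (-s.re)
    simp only [hk]
    push_cast
    linarith
  refine ⟨fun s => if c < s.re then f s else G (k s) s, ?_, fun s hs => if_pos hs⟩
  intro u _
  -- the functions G j, j ≤ K, with u in their domain, all agree near u
  set K : ℕ := ⌈-u.re + 1⌉₊ + 1 with hK
  have hKu : -(K : ℝ) < u.re := by
    have := Nat.le_ceil (-u.re + 1)
    simp only [hK]
    push_cast
    linarith
  have hGG : ∀ i j : ℕ, -(i : ℝ) < u.re → -(j : ℝ) < u.re → G i =ᶠ[𝓝[≠] u] G j := by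
    intro i j hi hj
    have hm : max (-(i : ℝ)) (-(j : ℝ)) < u.re := max_lt hi hj
    refine eq_near (a := max (-(i : ℝ)) (-(j : ℝ))) (d := max (d i) (d j)) ?_ ?_ ?_ hm
    · exact (hG i).mono_set (hp_mono (le_max_left _ _))
    · exact (hG j).mono_set (hp_mono (le_max_right _ _))
    · intro s hs
      rw [hd i s (lt_of_le_of_lt (le_max_left _ _) hs), hd j s (lt_of_le_of_lt (le_max_right _ _) hs)]
  have hfin : ∀ᶠ z in 𝓝[≠] u, ∀ i ∈ Finset.range (K + 1), -(i : ℝ) < u.re → G i z = G K z := by
    rw [Finset.eventually_all]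
    intro i _
    by_cases hi : -(i : ℝ) < u.re
    · filter_upwards [hGG i K hi hKu] with z hz _ using hz
    · exact Eventually.of_forall fun z h => absurd h hi
  have hnear : ∀ᶠ z in 𝓝[≠] u, u.re - 1 < z.re ∧ z.re < u.re + 1 := by
    refine Filter.Eventually.filter_mono nhdsWithin_le_nhds ?_
    have h1 : IsOpen {z : ℂ | u.re - 1 < z.re ∧ z.re < u.re + 1} :=
      (isOpen_lt continuous_const Complex.continuous_re).inter
        (isOpen_lt Complex.continuous_re continuous_const)
    exact h1.mem_nhds ⟨by simp, by simp⟩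
  -- f agrees with G K near u, if c < Re near u
  have hmain : ∀ᶠ z in 𝓝[≠] u, (if c < z.re then f z else G (k z) z) = G K z := by
    have hG0 : ∀ᶠ z in 𝓝[≠] u, ¬ c < z.re → G (k z) z = G K z := by
      filter_upwards [hfin, hnear] with z h1 h2 _
      refine h1 (k z) ?_ ?_
      · rw [Finset.mem_range]
        have h3 : ⌈-z.re⌉₊ ≤ ⌈-u.re + 1⌉₊ := Nat.ceil_le_ceil (by linarith [h2.1])
        simp only [hk, hK]
        omega
      · have := hkre z
        linarith [h2.2]
    have hf0 : ∀ᶠ z in 𝓝[≠] u, c < z.re → f z = G K z := by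
      by_cases hcu : u.re < c
      · have h1 : ∀ᶠ z in 𝓝[≠] u, z.re < c :=
          Filter.Eventually.filter_mono nhdsWithin_le_nhds
            ((isOpen_lt Complex.continuous_re continuous_const).mem_nhds hcu)
        filter_upwards [h1] with z h1 h2
        exact absurd h2 (not_lt.2 h1.le)
      · -- the function G K is meromorphic at u, and f = G K far right
        push Not at hcu
        -- on {max c (-K) < Re} they agree near every point; near u : the set of the bad points
        by_cases hcu' : c < u.re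
        · have h1 : f =ᶠ[𝓝[≠] u] G K := by
            refine eq_near (a := max c (-(K : ℝ))) (d := d K) ?_ ?_ ?_ (max_lt hcu' hKu)
            · exact hfm.mono_set (hp_mono (le_max_left _ _))
            · exact (hG K).mono_set (hp_mono (le_max_right _ _))
            · intro s hs
              rw [hd K s hs]
          filter_upwards [h1] with z hz _ using hz
        · have hcu2 : u.re = c := le_antisymm (not_lt.1 hcu') hcu
          -- near u, the function G K is analytic off u; f = G K at the points right of c by continuity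
          have h1 : ∀ᶠ z in 𝓝[≠] u, AnalyticAt ℂ (G K) z := (hG K u hKu).eventually_analyticAt
          have h2 : ∀ᶠ z in 𝓝[≠] u, -(K : ℝ) < z.re :=
            Filter.Eventually.filter_mono nhdsWithin_le_nhds ((isOpen_hp _).mem_nhds hKu)
          filter_upwards [h1, h2] with z hz1 hz2 hz3
          have h3 : f =ᶠ[𝓝[≠] z] G K := by
            refine eq_near (a := max c (-(K : ℝ))) (d := d K) ?_ ?_ ?_ (max_lt hz3 hz2)
            · exact hfm.mono_set (hp_mono (le_max_left _ _))
            · exact (hG K).mono_set (hp_mono (le_max_right _ _))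
            · intro s hs
              rw [hd K s hs]
          have h4 : AnalyticAt ℂ f z := (hf.analyticOnNhd (isOpen_hp c)) z hz3
          have h5 := h4.continuousAt.continuousWithinAt (s := {z}ᶜ)
          have h6 := hz1.continuousAt.continuousWithinAt (s := {z}ᶜ)
          exact tendsto_nhds_unique (h5.tendsto) ((h6.tendsto).congr' h3.symm)
    filter_upwards [hG0, hf0] with z h1 h2
    split_ifs with h
    · exact h2 h
    · exact h1 h
  exact (hG K u hKu).congr (hmain.mono fun z hz => hz.symm)

end Pool.Agent.K7.H58.EP
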