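import Mathlib

/-!
# Invariants of the Weyl groups of type A and C in the group ring of `ℤ^m`
-/

set_option autoImplicit false

namespace Pool.Agent.K7.H58.EP

open AddMonoidAlgebra Finset

section ee

variable {R : Type*} [CommRing R] {κ κ' : Type*} [Fintype κ] [Fintype κ']

/-- elementary symmetric functions -/
noncomputable def ee (x : κ → R) (j : ℕ) : R := ∑ I ∈ powersetCard j (univ : Finset κ), ∏ a ∈ I, x a

theorem map_ee {S : Type*} [CommRing S] (φ : R →+* S) (x : κ → R) (j : ℕ) :
    φ (ee x j) = ee (fun a => φ (x a)) j := by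
  unfold ee
  rw [map_sum]
  exact sum_congr rfl fun I _ => map_prod φ _ _

theorem prod_one_add_eq (x : κ → R) (t : R) :
    ∏ a, (1 + x a * t) = ∑ j ∈ range (Fintype.card κ + 1), ee x j * t ^ j := by
  rw [Finset.prod_one_add, Finset.sum_powerset]
  refine sum_congr rfl fun j _ => ?_
  unfold ee
  rw [sum_mul]
  refine sum_congr rfl fun I hI => ?_
  rw [prod_mul_distrib, prod_const, (mem_powersetCard.1 hI).2]

theorem ee_eq_zero (x : κ → R) {j : ℕ} (hj : Fintype.card κ < j) : ee x j = 0 := by
  unfold ee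
  rw [powersetCard_eq_empty.2 (by rwa [Finset.card_univ]), sum_empty]

open Polynomial in
theorem coeff_prod_one_add (x : κ → R) (j : ℕ) :
    (∏ a, (1 + C (x a) * X : R[X])).coeff j = ee x j := by
  rw [prod_one_add_eq (fun a => C (x a)) X, finsetSum_coeff]
  have h1 : ∀ i, ee (fun a => (C (x a) : R[X])) i = C (ee x i) := fun i => (map_ee C x i).symm
  simp only [h1, coeff_C_mul, coeff_X_pow, mul_ite, mul_one, mul_zero]
  rw [Finset.sum_ite_eq]
  split_ifs with h
  · rfl
  · rw [ee_eq_zero]
    rw [mem_range] at h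
    omega

open Polynomial in
theorem ee_congr {x : κ → R} {y : κ' → R}
    (h : ∏ a, (1 + C (x a) * X : R[X]) = ∏ a, (1 + C (y a) * X : R[X])) (j : ℕ) : ee x j = ee y j := by
  rw [← coeff_prod_one_add, h, coeff_prod_one_add]

end ee

variable {m : ℕ}

/-- the group ring of `ℤ^m` -/
abbrev GR (m : ℕ) := AddMonoidAlgebra ℤ (Fin m → ℤ)

/-- leading monomial `μ` with coefficient `1`, for the lexicographic order -/
def LM (f : GR m) (μ : Fin m → ℤ) : Prop :=
  ∃ g : GR m, f = single μ 1 + g ∧ ∀ ν, g.coeff ν ≠ 0 → toLex ν < toLex μ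

theorem LM.one : LM (1 : GR m) 0 := ⟨0, by rw [add_zero]; rfl, by simp⟩

theorem LM.single (μ : Fin m → ℤ) : LM (AddMonoidAlgebra.single μ 1 : GR m) μ := ⟨0, by rw [add_zero], by simp⟩

theorem supp_mul {f g : GR m} {κ : Fin m → ℤ} (h : (f * g).coeff κ ≠ 0) :
    ∃ μ ν, f.coeff μ ≠ 0 ∧ g.coeff ν ≠ 0 ∧ μ + ν = κ := by
  classical
  have h1 := support_coeff_mul_subset f g (Finsupp.mem_support_iff.2 h)
  rw [Finset.mem_add] at h1
  obtain ⟨μ, hμ, ν, hν, h2⟩ := h1
  exact ⟨μ, ν, Finsupp.mem_support_iff.1 hμ, Finsupp.mem_support_iff.1 hν, h2⟩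

theorem coeff_single_ne {μ ν : Fin m → ℤ} (h : (AddMonoidAlgebra.single μ (1 : ℤ) : GR m).coeff ν ≠ 0) :
    ν = μ := by
  rw [coeff_single, Finsupp.single_apply] at h
  by_contra hne
  exact h (if_neg fun h' => hne h'.symm)

theorem LM.mul {f g : GR m} {μ ν : Fin m → ℤ} (hf : LM f μ) (hg : LM g ν) : LM (f * g) (μ + ν) := by
  obtain ⟨f', rfl, hf'⟩ := hf
  obtain ⟨g', rfl, hg'⟩ := hg
  refine ⟨AddMonoidAlgebra.single μ 1 * g' + f' * AddMonoidAlgebra.single ν 1 + f' * g', ?_, ?_⟩
  · rw [add_mul, mul_add, mul_add, single_mul_single, one_mul]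
    abel
  · intro κ hκ
    rw [coeff_add, coeff_add, Finsupp.add_apply, Finsupp.add_apply] at hκ
    have h3 : (AddMonoidAlgebra.single μ 1 * g').coeff κ ≠ 0 ∨
        (f' * AddMonoidAlgebra.single ν 1).coeff κ ≠ 0 ∨ (f' * g').coeff κ ≠ 0 := by
      by_contra hcon
      push Not at hcon
      rw [hcon.1, hcon.2.1, hcon.2.2] at hκ
      exact hκ rfl
    rcases h3 with h | h | h
    · obtain ⟨a, b, ha, hb, rfl⟩ := supp_mul h
      rw [coeff_single_ne ha, toLex_add, toLex_add]
      exact add_lt_add_right (hg' b hb) _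
    · obtain ⟨a, b, ha, hb, rfl⟩ := supp_mul h
      rw [coeff_single_ne hb, toLex_add, toLex_add]
      exact add_lt_add_left (hf' a ha) _
    · obtain ⟨a, b, ha, hb, rfl⟩ := supp_mul h
      rw [toLex_add, toLex_add]
      exact add_lt_add (hf' a ha) (hg' b hb)

theorem LM.coeff_self {f : GR m} {μ : Fin m → ℤ} (hf : LM f μ) : f.coeff μ = 1 := by
  obtain ⟨f', rfl, hf'⟩ := hf
  rw [coeff_add, Finsupp.add_apply, coeff_single, Finsupp.single_eq_same]
  by_contra h
  have h1 : f'.coeff μ ≠ 0 := fun h1 => h (by rw [h1, add_zero])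
  exact lt_irrefl _ (hf' μ h1)

theorem LM.le {f : GR m} {μ ν : Fin m → ℤ} (hf : LM f μ) (h : f.coeff ν ≠ 0) : toLex ν ≤ toLex μ := by
  obtain ⟨f', rfl, hf'⟩ := hf
  rw [coeff_add, Finsupp.add_apply] at h
  by_cases h1 : f'.coeff ν = 0
  · rw [h1, add_zero] at h
    rw [coeff_single_ne h]
  · exact (hf' ν h1).le

/-- the casts -/
def cst (l : Fin m → ℕ) : Fin m → ℤ := fun i => l i

theorem cst_lt {a b : Fin m → ℕ} : toLex (cst a) < toLex (cst b) ↔ toLex a < toLex b := by
  constructor
  · rintro ⟨i, h1, h2⟩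
    refine ⟨i, fun j hj => ?_, ?_⟩
    · have := h1 j hj
      simp only [cst, Pi.toLex_apply, Nat.cast_inj] at this
      exact this
    · simp only [cst, Pi.toLex_apply, Nat.cast_lt] at h2
      exact h2
  · rintro ⟨i, h1, h2⟩
    refine ⟨i, fun j hj => ?_, ?_⟩
    · have := h1 j hj
      simp only [cst, Pi.toLex_apply, Nat.cast_inj]
      exact this
    · simp only [cst, Pi.toLex_apply, Nat.cast_lt]
      exact h2

theorem exists_max {f : GR m} (hf : f ≠ 0) : ∃ μ, f.coeff μ ≠ 0 ∧ ∀ ν, f.coeff ν ≠ 0 → toLex ν ≤ toLex μ := by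
  have h1 : f.coeff.support.Nonempty := by
    rw [Finsupp.support_nonempty_iff]
    exact fun h => hf (coeff_eq_zero.1 h)
  obtain ⟨μ, hμ, h2⟩ := f.coeff.support.exists_max_image (fun ν => toLex ν) h1
  exact ⟨μ, Finsupp.mem_support_iff.1 hμ, fun ν hν => h2 ν (Finsupp.mem_support_iff.2 hν)⟩

/-- **Spanning by leading monomials.** -/
theorem spanning (I E : AddSubgroup (GR m)) (h : ∀ f ∈ I, ∀ μ, f.coeff μ ≠ 0 →
    (∀ ν, f.coeff ν ≠ 0 → toLex ν ≤ toLex μ) → (∀ i, 0 ≤ μ i) ∧ ∃ P, P ∈ I ∧ P ∈ E ∧ LM P μ) : I ≤ E := by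
  have key : ∀ n : Lex (Fin m → ℕ), ∀ f ∈ I, (∀ ν, f.coeff ν ≠ 0 → toLex ν ≤ toLex (cst (ofLex n))) →
      f ∈ E := by
    intro n
    induction n using WellFoundedLT.induction with
    | ind n ih =>
      intro f hf hn
      by_cases hf0 : f = 0
      · rw [hf0]
        exact E.zero_mem
      obtain ⟨μ, hμ, hmax⟩ := exists_max hf0
      obtain ⟨hpos, P, hPI, hPE, hP⟩ := h f hf μ hμ hmax
      set f' := f - (f.coeff μ) • P with hf'
      have hf'I : f' ∈ I := I.sub_mem hf (I.zsmul_mem hPI _)
      have hlt : ∀ ν, f'.coeff ν ≠ 0 → toLex ν < toLex μ := by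
        intro ν hν
        have hc : f'.coeff ν = f.coeff ν - f.coeff μ * P.coeff ν := by
          rw [hf', coeff_sub, Finsupp.sub_apply, coeff_smul, Finsupp.smul_apply, smul_eq_mul]
        have hle : toLex ν ≤ toLex μ := by
          by_cases h1 : f.coeff ν = 0
          · have h2 : P.coeff ν ≠ 0 := by
              intro h2
              rw [h1, h2] at hc
              apply hν
              rw [hc]
              ring
            exact hP.le h2
          · exact hmax ν h1
        refine lt_of_le_of_ne hle fun heq => ?_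
        have h3 : ν = μ := toLex.injective heq
        rw [h3, hP.coeff_self] at hc
        rw [h3] at hν
        apply hν
        rw [hc]
        ring
      have hfE : f = f' + (f.coeff μ) • P := by rw [hf']; abel
      suffices hs : f' ∈ E by
        rw [hfE]
        exact E.add_mem hs (E.zsmul_mem hPE _)
      by_cases hf'0 : f' = 0
      · rw [hf'0]
        exact E.zero_mem
      obtain ⟨μ', hμ', hmax'⟩ := exists_max hf'0
      have hpos' := (h f' hf'I μ' hμ' hmax').1
      obtain ⟨l, hl⟩ : ∃ l : Fin m → ℕ, cst l = μ' :=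
        ⟨fun i => (μ' i).toNat, by funext i; exact Int.toNat_of_nonneg (hpos' i)⟩
      refine ih (toLex l) ?_ f' hf'I ?_
      · have h4 : toLex (cst l) < toLex (cst (ofLex n)) := by
          rw [hl]
          exact lt_of_lt_of_le (hlt μ' hμ') (hn μ hμ)
        exact cst_lt.1 h4
      · intro ν hν
        rw [ofLex_toLex, hl]
        exact hmax' ν hν
  intro f hf
  by_cases hf0 : f = 0
  · rw [hf0]
    exact E.zero_mem
  obtain ⟨μ, hμ, hmax⟩ := exists_max hf0
  have hpos := (h f hf μ hμ hmax).1
  refine key (toLex fun i => (μ i).toNat) f hf fun ν hν => ?_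
  have h5 : cst (ofLex (toLex fun i => (μ i).toNat)) = μ := by
    funext i
    exact Int.toNat_of_nonneg (hpos i)
  rw [h5]
  exact hmax ν hν

/-- the vector `(1, ..., 1, 0, ..., 0)` -/
def stp (m j : ℕ) : Fin m → ℤ := fun k => if k.1 < j then 1 else 0

/-- leading monomial of the elementary symmetric functions of the monomials with exponents `v a` -/
theorem LM_ee {κ : Type*} [Fintype κ] (v : κ → (Fin m → ℤ)) (j : ℕ) (I₀ : Finset κ)
    (h0 : I₀.card = j) (hw : ∑ a ∈ I₀, v a = stp m j)
    (h1 : ∀ I : Finset κ, ∀ k, (∑ a ∈ I, v a) k ≤ 1)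
    (h2 : ∀ I : Finset κ, I.card = j → (∀ k : Fin m, k.1 < j → (∑ a ∈ I, v a) k = 1) → I = I₀) :
    LM (ee (fun a => (AddMonoidAlgebra.single (v a) 1 : GR m)) j) (stp m j) := by
  classical
  have hI : ∀ I : Finset κ, ∏ a ∈ I, (AddMonoidAlgebra.single (v a) 1 : GR m) =
      AddMonoidAlgebra.single (∑ a ∈ I, v a) 1 := by
    intro I
    rw [AddMonoidAlgebra.prod_single]
    simp
  refine ⟨∑ I ∈ (powersetCard j (univ : Finset κ)).erase I₀, ∏ a ∈ I,
    (AddMonoidAlgebra.single (v a) 1 : GR m), ?_, ?_⟩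
  · unfold ee
    rw [← Finset.add_sum_erase _ _ (mem_powersetCard.2 ⟨subset_univ _, h0⟩ : I₀ ∈ _), hI, hw]
  · intro ν hν
    rw [coeff_sum, Finsupp.finsetSum_apply] at hν
    obtain ⟨I, hI1, hI2⟩ := Finset.exists_ne_zero_of_sum_ne_zero hν
    rw [hI] at hI2
    rw [coeff_single_ne hI2]
    obtain ⟨hne, hcard⟩ := Finset.mem_erase.1 hI1
    have hcard := (mem_powersetCard.1 hcard).2
    have hex : ∃ k : Fin m, k.1 < j ∧ (∑ a ∈ I, v a) k ≠ 1 := by
      by_contra hcon
      push Not at hcon
      exact hne (h2 I hcard hcon)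
    -- take the least such k
    obtain ⟨k, hk, hmin⟩ := Finset.exists_min_image (univ.filter fun k : Fin m => k.1 < j ∧
      (∑ a ∈ I, v a) k ≠ 1) id (by
        obtain ⟨k, hk⟩ := hex
        exact ⟨k, by simpa using hk⟩)
    rw [mem_filter] at hk
    refine ⟨k, fun i hi => ?_, ?_⟩
    · simp only [Pi.toLex_apply]
      have h3 : i.1 < j := lt_trans hi hk.2.1
      have h4 : (∑ a ∈ I, v a) i = 1 := by
        by_contra h5
        have h6 := hmin i (by rw [mem_filter]; exact ⟨mem_univ _, h3, h5⟩)
        exact absurd hi (not_lt.2 h6)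
      rw [h4, stp, if_pos h3]
    · simp only [Pi.toLex_apply]
      rw [stp, if_pos hk.2.1]
      exact lt_of_le_of_ne (h1 I k) hk.2.2

/-- products of the elementary symmetric functions with a given dominant leading monomial -/
theorem exists_LM (E : Submonoid (GR m)) (hE : ∀ j, 1 ≤ j → j ≤ m → ∃ P ∈ E, LM P (stp m j))
    (l : Fin m → ℕ) (hl : Antitone l) : ∃ P ∈ E, LM P (cst l) := by
  classical
  have key : ∀ n : ℕ, ∀ l : Fin m → ℕ, Antitone l → ∑ i, l i = n → ∃ P ∈ E, LM P (cst l) := by
    intro n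
    induction n using Nat.strong_induction_on with
    | _ n ih =>
      intro l hl hn
      by_cases h0 : l = 0
      · refine ⟨1, E.one_mem, ?_⟩
        rw [h0]
        have : cst (0 : Fin m → ℕ) = 0 := by funext i; simp [cst]
        rw [this]
        exact LM.one
      -- j = number of positive entries
      obtain ⟨j, hjm, hj⟩ : ∃ j ≤ m, ∀ k : Fin m, 0 < l k ↔ k.1 < j := by
        have hex : ∃ n, n = m ∨ ∃ h : n < m, l ⟨n, h⟩ = 0 := ⟨m, Or.inl rfl⟩
        refine ⟨Nat.find hex, ?_, fun k => ?_⟩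
        · exact Nat.find_min' hex (Or.inl rfl)
        · constructor
          · intro hk
            by_contra hcon
            push Not at hcon
            rcases Nat.find_spec hex with h1 | ⟨h1, h2⟩
            · have := k.2
              omega
            · have h3 : l k ≤ l ⟨Nat.find hex, h1⟩ := hl hcon
              omega
          · intro hk
            have h1 := Nat.find_min hex hk
            push Not at h1
            exact Nat.pos_of_ne_zero (h1.2 k.2)
      have hj1 : 1 ≤ j := by
        by_contra hcon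
        have : j = 0 := by omega
        apply h0
        funext k
        by_contra h1
        have := (hj k).1 (Nat.pos_of_ne_zero h1)
        omega
      obtain ⟨P, hPE, hP⟩ := hE j hj1 hjm
      set l' : Fin m → ℕ := fun k => if k.1 < j then l k - 1 else l k with hl'
      have hl'a : Antitone l' := by
        intro a b hab
        simp only [hl']
        have h1 := hl hab
        have h2 := hj a
        have h3 := hj b
        split_ifs with h4 h5 h5
        · omega
        · have := h3.2 h4
          have h6 : a.1 ≤ b.1 := hab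
          omega
        · omega
        · exact h1
      have hsum : ∑ i, l' i < n := by
        rw [← hn]
        refine Finset.sum_lt_sum (fun i _ => ?_) ?_
        · simp only [hl']
          split_ifs <;> omega
        · have hk0 : ∃ k : Fin m, k.1 < j := by
            have hm : 0 < m := by omega
            exact ⟨⟨0, hm⟩, hj1⟩
          obtain ⟨k, hk⟩ := hk0
          refine ⟨k, mem_univ _, ?_⟩
          have := (hj k).2 hk
          simp only [hl']
          rw [if_pos hk]
          omega
      obtain ⟨Q, hQE, hQ⟩ := ih _ hsum l' hl'a rfl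
      refine ⟨P * Q, E.mul_mem hPE hQE, ?_⟩
      have h5 : cst l = stp m j + cst l' := by
        funext k
        simp only [cst, stp, Pi.add_apply, hl']
        have := hj k
        split_ifs with h6
        · have := this.2 h6
          push_cast [Nat.sub_add_cancel]
          omega
        · simp
      rw [h5]
      exact hP.mul hQ
  exact key _ l hl rfl

end Pool.Agent.K7.H58.EP
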