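import Pool.Agent.K7.H58.EP.Lexi

/-!
# Invariants under permutations and sign changes
-/

set_option autoImplicit false

namespace Pool.Agent.K7.H58.EP

open AddMonoidAlgebra Finset

variable {m : ℕ}

/-- permutation of the coordinates -/
def permE (g : Equiv.Perm (Fin m)) : (Fin m → ℤ) ≃+ (Fin m → ℤ) where
  toFun μ := μ ∘ g
  invFun μ := μ ∘ g.symm
  left_inv μ := by funext i; simp
  right_inv μ := by funext i; simp
  map_add' _ _ := rfl

/-- change of the sign of the coordinate `i` -/
def flipE (i : Fin m) : (Fin m → ℤ) ≃+ (Fin m → ℤ) where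
  toFun μ := fun k => if k = i then -μ k else μ k
  invFun μ := fun k => if k = i then -μ k else μ k
  left_inv μ := by funext k; by_cases h : k = i <;> simp [h]
  right_inv μ := by funext k; by_cases h : k = i <;> simp [h]
  map_add' μ ν := by
    funext k
    by_cases h : k = i
    · simp [h]; ring
    · simp [h]

theorem permE_apply (g : Equiv.Perm (Fin m)) (μ : Fin m → ℤ) : permE g μ = μ ∘ g := rfl
theorem permE_symm_apply (g : Equiv.Perm (Fin m)) (μ : Fin m → ℤ) : (permE g).symm μ = μ ∘ g.symm := rfl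
theorem flipE_apply (i : Fin m) (μ : Fin m → ℤ) : flipE i μ = fun k => if k = i then -μ k else μ k := rfl
theorem flipE_symm_apply (i : Fin m) (μ : Fin m → ℤ) :
    (flipE i).symm μ = fun k => if k = i then -μ k else μ k := rfl

/-- the automorphism of the group ring -/
noncomputable def act (e : (Fin m → ℤ) ≃+ (Fin m → ℤ)) : GR m ≃+* GR m := mapDomainRingEquiv ℤ e

theorem coeff_act (e : (Fin m → ℤ) ≃+ (Fin m → ℤ)) (f : GR m) (μ : Fin m → ℤ) :
    (act e f).coeff μ = f.coeff (e.symm μ) := by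
  unfold act
  rw [coeff_mapDomainRingEquiv, Finsupp.equivMapDomain_apply]
  rfl

theorem act_single (e : (Fin m → ℤ) ≃+ (Fin m → ℤ)) (μ : Fin m → ℤ) (r : ℤ) :
    act e (single μ r) = single (e μ) r := mapDomainRingEquiv_single ..

/-- invariants under permutations -/
noncomputable def InvP (m : ℕ) : Subring (GR m) where
  carrier := {f | ∀ g : Equiv.Perm (Fin m), act (permE g) f = f}
  mul_mem' {a b} ha hb g := by rw [map_mul, ha g, hb g]
  add_mem' {a b} ha hb g := by rw [map_add, ha g, hb g]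
  neg_mem' {a} ha g := by rw [map_neg, ha g]
  one_mem' g := by rw [map_one]
  zero_mem' g := by rw [map_zero]

/-- invariants under sign changes -/
noncomputable def InvF (m : ℕ) : Subring (GR m) where
  carrier := {f | ∀ i : Fin m, act (flipE i) f = f}
  mul_mem' {a b} ha hb g := by rw [map_mul, ha g, hb g]
  add_mem' {a b} ha hb g := by rw [map_add, ha g, hb g]
  neg_mem' {a} ha g := by rw [map_neg, ha g]
  one_mem' g := by rw [map_one]
  zero_mem' g := by rw [map_zero]

theorem mem_InvP {f : GR m} : f ∈ InvP m ↔ ∀ g : Equiv.Perm (Fin m), act (permE g) f = f := Iff.rfl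
theorem mem_InvF {f : GR m} : f ∈ InvF m ↔ ∀ i : Fin m, act (flipE i) f = f := Iff.rfl

theorem mem_InvP' {f : GR m} : f ∈ InvP m ↔ ∀ (g : Equiv.Perm (Fin m)) μ, f.coeff (μ ∘ g) = f.coeff μ := by
  rw [mem_InvP]
  constructor
  · intro h g μ
    have h1 := congrArg (fun f : GR m => f.coeff (μ ∘ g)) (h g)
    simp only [coeff_act, permE_symm_apply] at h1
    rw [← h1]
    congr 1
    funext i
    simp
  · intro h g
    apply AddMonoidAlgebra.coeff_injective
    ext μ
    rw [coeff_act, permE_symm_apply, h]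

/-- invariance under `μ_i ↦ ε - μ_i` -/
theorem coeff_eps (ε : ℤ) (i : Fin m) (f : GR m) (μ : Fin m → ℤ) :
    (single (Pi.single i ε) 1 * act (flipE i) f).coeff μ = f.coeff (Function.update μ i (ε - μ i)) := by
  rw [coeff_single_mul_apply, one_mul, coeff_act, flipE_symm_apply]
  congr 1
  funext k
  by_cases h : k = i
  · subst h
    simp
    ring
  · simp [h]

/-- the invariants of the Weyl group for the shifted sign changes -/
noncomputable def InvE (m : ℕ) (ε : ℤ) : AddSubgroup (GR m) where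
  carrier := {f | f ∈ InvP m ∧ ∀ i : Fin m, single (Pi.single i ε) 1 * act (flipE i) f = f}
  add_mem' {a b} ha hb := ⟨(InvP m).add_mem ha.1 hb.1, fun i => by rw [map_add, mul_add, ha.2, hb.2]⟩
  neg_mem' {a} ha := ⟨(InvP m).neg_mem ha.1, fun i => by rw [map_neg, mul_neg, ha.2]⟩
  zero_mem' := ⟨(InvP m).zero_mem, fun i => by rw [map_zero, mul_zero]⟩

theorem mem_InvE {ε : ℤ} {f : GR m} : f ∈ InvE m ε ↔ f ∈ InvP m ∧ ∀ i : Fin m,
    single (Pi.single i ε) 1 * act (flipE i) f = f := Iff.rfl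

theorem mem_InvE' {ε : ℤ} {f : GR m} : f ∈ InvE m ε ↔
    (∀ (g : Equiv.Perm (Fin m)) μ, f.coeff (μ ∘ g) = f.coeff μ) ∧
      ∀ (i : Fin m) μ, f.coeff (Function.update μ i (ε - μ i)) = f.coeff μ := by
  rw [mem_InvE, mem_InvP']
  refine and_congr_right fun _ => forall_congr' fun i => ?_
  constructor
  · intro h μ
    rw [← coeff_eps, h]
  · intro h
    apply AddMonoidAlgebra.coeff_injective
    ext μ
    rw [coeff_eps, h]

/-- the monomial with exponent vector `v` -/
noncomputable abbrev mon (v : Fin m → ℤ) : GR m := single v 1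

theorem mon_mul (v w : Fin m → ℤ) : mon v * mon w = mon (v + w) := by
  rw [single_mul_single, one_mul]

theorem mon_prod {κ : Type*} (s : Finset κ) (v : κ → Fin m → ℤ) : ∏ i ∈ s, mon (v i) = mon (∑ i ∈ s, v i) := by
  unfold mon
  rw [AddMonoidAlgebra.prod_single]
  simp

/-- the exponent vector of the variable `t_i` -/
def bas (i : Fin m) : Fin m → ℤ := Pi.single i 1

theorem permE_bas (g : Equiv.Perm (Fin m)) (i : Fin m) : permE g (bas i) = bas (g.symm i) := by
  funext k
  rw [permE_apply]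
  simp only [bas, Function.comp_apply, Pi.single_apply, Equiv.eq_symm_apply]

theorem flipE_bas (i k : Fin m) : flipE i (bas k) = if k = i then -bas k else bas k := by
  funext j
  rw [flipE_apply]
  simp only [bas, Pi.single_apply]
  by_cases h : j = i
  · subst h
    by_cases h1 : k = j
    · subst h1; simp
    · simp [h1, Ne.symm h1]
  · by_cases h1 : k = i
    · subst h1; simp [h]
    · simp [h, h1, Pi.single_apply]

/-- `e_j(t_1, ..., t_m)` -/
noncomputable def eG (m j : ℕ) : GR m := ee (fun i : Fin m => mon (bas i)) j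

/-- the exponents of the standard representation of `SO(2m+1)` -/
def sv : (Fin m ⊕ Fin m) ⊕ Unit → (Fin m → ℤ)
  | Sum.inl (Sum.inl i) => bas i
  | Sum.inl (Sum.inr i) => -bas i
  | Sum.inr _ => 0

/-- `e_j(1, t_1, ..., t_m, t_1⁻¹, ..., t_m⁻¹)` -/
noncomputable def eS (m j : ℕ) : GR m := ee (fun a : (Fin m ⊕ Fin m) ⊕ Unit => mon (sv a)) j

theorem sum_bas_apply (I : Finset (Fin m)) (k : Fin m) : (∑ i ∈ I, bas i) k = if k ∈ I then 1 else 0 := by
  classical
  rw [Finset.sum_apply]
  simp only [bas, Pi.single_apply]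
  rw [Finset.sum_ite_eq]

theorem card_filter_lt {j : ℕ} (hj : j ≤ m) : (univ.filter fun i : Fin m => i.1 < j).card = j := by
  rw [Fin.card_filter_val_lt, min_eq_right hj]

theorem LM_eG {j : ℕ} (hj : j ≤ m) : LM (eG m j) (stp m j) := by
  classical
  refine LM_ee (fun i : Fin m => bas i) j (univ.filter fun i : Fin m => i.1 < j) (card_filter_lt hj) ?_ ?_ ?_
  · funext k
    rw [sum_bas_apply, stp]
    simp
  · intro I k
    rw [sum_bas_apply]
    split_ifs <;> norm_num
  · intro I hI h
    symm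
    refine Finset.eq_of_subset_of_card_le (fun k hk => ?_) (by rw [hI, card_filter_lt hj])
    rw [mem_filter] at hk
    have h1 := h k hk.2
    rw [sum_bas_apply] at h1
    by_contra h2
    rw [if_neg h2] at h1
    exact absurd h1 (by norm_num)

theorem sum_sv_apply (I : Finset ((Fin m ⊕ Fin m) ⊕ Unit)) (k : Fin m) :
    (∑ a ∈ I, sv a) k = (if Sum.inl (Sum.inl k) ∈ I then 1 else 0) -
      (if Sum.inl (Sum.inr k) ∈ I then 1 else 0) := by
  classical
  rw [Finset.sum_apply]
  have h1 : ∀ a : (Fin m ⊕ Fin m) ⊕ Unit, sv a k =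
      (if Sum.inl (Sum.inl k) = a then 1 else 0) - (if Sum.inl (Sum.inr k) = a then 1 else 0) := by
    rintro ((i | i) | u)
    · simp [sv, bas, Pi.single_apply]
    · simp [sv, bas, Pi.single_apply]
    · simp [sv]
  simp only [h1]
  rw [Finset.sum_sub_distrib, Finset.sum_ite_eq, Finset.sum_ite_eq]

theorem LM_eS {j : ℕ} (hj : j ≤ m) : LM (eS m j) (stp m j) := by
  classical
  have hinj : Function.Injective (fun i : Fin m => (Sum.inl (Sum.inl i) : (Fin m ⊕ Fin m) ⊕ Unit)) :=
    fun a b h => by simpa using h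
  set I₀ : Finset ((Fin m ⊕ Fin m) ⊕ Unit) := (univ.filter fun i : Fin m => i.1 < j).image
    (fun i => Sum.inl (Sum.inl i)) with hI₀
  have hmem1 : ∀ k : Fin m, Sum.inl (Sum.inl k) ∈ I₀ ↔ k.1 < j := by
    intro k
    rw [hI₀]
    simp
  have hmem2 : ∀ k : Fin m, Sum.inl (Sum.inr k) ∉ I₀ := by
    intro k
    rw [hI₀]
    simp
  have hcard : I₀.card = j := by rw [hI₀, card_image_of_injective _ hinj, card_filter_lt hj]
  refine LM_ee (fun a : (Fin m ⊕ Fin m) ⊕ Unit => sv a) j I₀ hcard ?_ ?_ ?_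
  · funext k
    rw [sum_sv_apply, stp, if_neg (hmem2 k), sub_zero]
    simp only [hmem1]
  · intro I k
    rw [sum_sv_apply]
    split_ifs <;> norm_num
  · intro I hI h
    symm
    refine Finset.eq_of_subset_of_card_le (fun a ha => ?_) (by rw [hI, hcard])
    rw [hI₀, mem_image] at ha
    obtain ⟨k, hk, rfl⟩ := ha
    rw [mem_filter] at hk
    have h1 := h k hk.2
    rw [sum_sv_apply] at h1
    by_contra h2
    rw [if_neg h2] at h1
    split_ifs at h1 <;> norm_num at h1

theorem eG_mem (j : ℕ) : eG m j ∈ InvP m := by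
  intro g
  unfold eG
  have h := map_ee (act (permE g) : GR m ≃+* GR m).toRingHom (fun i : Fin m => mon (bas i)) j
  change act (permE g) _ = _ at h
  rw [h]
  apply ee_congr
  refine Fintype.prod_equiv g.symm _ _ fun i => ?_
  change (1 + Polynomial.C (act (permE g) (mon (bas i))) * Polynomial.X : Polynomial (GR m)) = _
  rw [mon, act_single, permE_bas]

theorem act_eS {e : (Fin m → ℤ) ≃+ (Fin m → ℤ)} (σ : Equiv.Perm ((Fin m ⊕ Fin m) ⊕ Unit))
    (h : ∀ a, e (sv a) = sv (σ a)) (j : ℕ) : act e (eS m j) = eS m j := by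
  unfold eS
  have h1 := map_ee (act e : GR m ≃+* GR m).toRingHom (fun a => mon (sv a)) j
  change act e _ = _ at h1
  rw [h1]
  apply ee_congr
  refine Fintype.prod_equiv σ _ _ fun a => ?_
  have h2 : (act e : GR m ≃+* GR m).toRingHom (mon (sv a)) = mon (sv (σ a)) := by
    rw [← h a]
    exact act_single e _ 1
  rw [h2]

theorem eS_mem_P (j : ℕ) : eS m j ∈ InvP m := by
  intro g
  refine act_eS (Equiv.sumCongr (Equiv.sumCongr g.symm g.symm) (Equiv.refl _)) ?_ j
  rintro ((i | i) | u)
  · exact permE_bas g i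
  · change permE g (-bas i) = -bas (g.symm i)
    rw [map_neg, permE_bas]
  · exact map_zero _

theorem eS_mem_F (j : ℕ) : eS m j ∈ InvF m := by
  intro i
  refine act_eS (Equiv.swap (Sum.inl (Sum.inl i)) (Sum.inl (Sum.inr i))) ?_ j
  rintro ((k | k) | u)
  · by_cases h : k = i
    · subst h
      rw [Equiv.swap_apply_left]
      change flipE k (bas k) = -bas k
      rw [flipE_bas, if_pos rfl]
    · rw [Equiv.swap_apply_of_ne_of_ne (by simpa using h) (by simp)]
      change flipE i (bas k) = bas k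
      rw [flipE_bas, if_neg h]
  · by_cases h : k = i
    · subst h
      rw [Equiv.swap_apply_right]
      change flipE k (-bas k) = bas k
      rw [map_neg, flipE_bas, if_pos rfl, neg_neg]
    · rw [Equiv.swap_apply_of_ne_of_ne (by simp) (by simpa using h)]
      change flipE i (-bas k) = -bas k
      rw [map_neg, flipE_bas, if_neg h]
  · rw [Equiv.swap_apply_of_ne_of_ne (by simp) (by simp)]
    exact map_zero _

/-- the ring generated by the `e_j(1, t, t⁻¹)` -/
noncomputable def ES (m : ℕ) : Subring (GR m) := Subring.closure (Set.range (eS m))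

/-- the ring generated by the `e_j(t)` -/
noncomputable def EG (m : ℕ) : Subring (GR m) := Subring.closure (Set.range (eG m))

theorem ES_le : ES m ≤ InvP m ⊓ InvF m := by
  unfold ES
  rw [Subring.closure_le]
  rintro _ ⟨j, rfl⟩
  exact ⟨eS_mem_P j, eS_mem_F j⟩

theorem EG_le : EG m ≤ InvP m := by
  unfold EG
  rw [Subring.closure_le]
  rintro _ ⟨j, rfl⟩
  exact eG_mem j

theorem ES_LM (l : Fin m → ℕ) (hl : Antitone l) : ∃ P ∈ ES m, LM P (cst l) :=
  exists_LM (ES m).toSubmonoid (fun j _ hj => ⟨eS m j, Subring.subset_closure ⟨j, rfl⟩, LM_eS hj⟩) l hl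

theorem EG_LM (l : Fin m → ℕ) (hl : Antitone l) : ∃ P ∈ EG m, LM P (cst l) :=
  exists_LM (EG m).toSubmonoid (fun j _ hj => ⟨eG m j, Subring.subset_closure ⟨j, rfl⟩, LM_eG hj⟩) l hl

/-- the leading exponent of a function invariant under permutations is decreasing -/
theorem antitone_lead {f : GR m} (hf : ∀ (g : Equiv.Perm (Fin m)) μ, f.coeff (μ ∘ g) = f.coeff μ)
    {μ : Fin m → ℤ} (hμ : f.coeff μ ≠ 0) (hmax : ∀ ν, f.coeff ν ≠ 0 → toLex ν ≤ toLex μ) : Antitone μ := by
  intro a b hab
  by_contra hcon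
  push Not at hcon
  have hne : a ≠ b := by rintro rfl; exact lt_irrefl _ hcon
  have hlt : a < b := lt_of_le_of_ne hab hne
  have h1 := hmax (μ ∘ Equiv.swap a b) (by rw [hf]; exact hμ)
  refine absurd h1 (not_le.2 ⟨a, fun j hj => ?_, ?_⟩)
  · simp only [Pi.toLex_apply, Function.comp_apply]
    rw [Equiv.swap_apply_of_ne_of_ne (ne_of_lt hj) (ne_of_lt (lt_trans hj hlt))]
  · simp only [Pi.toLex_apply, Function.comp_apply, Equiv.swap_apply_left]
    exact hcon

theorem eps_lead {ε : ℤ} {f : GR m} (hf : ∀ (i : Fin m) μ, f.coeff (Function.update μ i (ε - μ i)) = f.coeff μ)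
    {μ : Fin m → ℤ} (hμ : f.coeff μ ≠ 0) (hmax : ∀ ν, f.coeff ν ≠ 0 → toLex ν ≤ toLex μ) (i : Fin m) :
    ε ≤ 2 * μ i := by
  by_contra hcon
  push Not at hcon
  have h1 := hmax (Function.update μ i (ε - μ i)) (by rw [hf]; exact hμ)
  refine absurd h1 (not_le.2 ⟨i, fun j hj => ?_, ?_⟩)
  · simp only [Pi.toLex_apply]
    rw [Function.update_of_ne (ne_of_lt hj)]
  · simp only [Pi.toLex_apply, Function.update_self]
    linarith

/-- `∏ (1 + t_i)`, the spin representation without its first coordinate -/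
noncomputable def sp (m : ℕ) : GR m := ∏ i : Fin m, (1 + mon (bas i))

theorem sp_mem : sp m ∈ InvE m 1 := by
  rw [mem_InvE]
  constructor
  · intro g
    unfold sp
    rw [map_prod]
    refine Fintype.prod_equiv g.symm _ _ fun i => ?_
    rw [map_add, map_one, mon, act_single, permE_bas]
  · intro i
    unfold sp
    rw [map_prod, ← Finset.mul_prod_erase univ _ (mem_univ i), ← Finset.mul_prod_erase univ (fun i => 1 + mon (bas i)) (mem_univ i),
      ← mul_assoc]
    congr 1
    · rw [map_add, map_one, mon, act_single, flipE_bas, if_pos rfl, mul_add, mul_one,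
        single_mul_single]
      have h1 : (Pi.single i 1 : Fin m → ℤ) = bas i := rfl
      rw [h1, add_neg_cancel, add_comm]
      rfl
    · refine Finset.prod_congr rfl fun k hk => ?_
      rw [map_add, map_one, mon, act_single, flipE_bas, if_neg (Finset.ne_of_mem_erase hk)]

theorem LM_sp : LM (sp m) (fun _ => 1) := by
  classical
  have key : ∀ s : Finset (Fin m), LM (∏ i ∈ s, (1 + mon (bas i)) : GR m) (∑ i ∈ s, bas i) := by
    intro s
    induction s using Finset.induction_on with
    | empty => simpa using LM.one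
    | insert a s ha ih =>
      rw [Finset.prod_insert ha, Finset.sum_insert ha]
      refine LM.mul ⟨1, by rw [add_comm], ?_⟩ ih
      intro ν hν
      have h1 : ν = 0 := coeff_single_ne (μ := 0) hν
      rw [h1]
      refine ⟨a, fun j hj => ?_, ?_⟩
      · simp only [Pi.toLex_apply, bas]
        rw [Pi.single_eq_of_ne (ne_of_lt hj)]
        rfl
      · simp only [Pi.toLex_apply, bas]
        rw [Pi.single_eq_same]
        exact zero_lt_one
  have h := key univ
  have h2 : (∑ i : Fin m, bas i) = fun _ => (1 : ℤ) := by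
    funext k
    rw [sum_bas_apply]
    simp
  rw [h2] at h
  exact h

theorem InvE_mul {ε : ℤ} {f g : GR m} (hf : f ∈ InvE m ε) (hg : g ∈ ES m) : f * g ∈ InvE m ε := by
  have hg' := ES_le hg
  rw [mem_InvE] at hf ⊢
  refine ⟨(InvP m).mul_mem hf.1 hg'.1, fun i => ?_⟩
  rw [map_mul, ← mul_assoc, hf.2 i, mem_InvF.1 hg'.2 i]

theorem one_mem_InvE : (1 : GR m) ∈ InvE m 0 := by
  rw [mem_InvE]
  refine ⟨(InvP m).one_mem, fun i => ?_⟩
  rw [map_one, mul_one, Pi.single_zero]
  rfl

/-- **Weyl group of type C, even part.** -/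
theorem even_span : (InvE m 0 : Set (GR m)) ⊆ ES m := by
  have h := spanning (m := m) (InvE m 0) (ES m).toAddSubgroup ?_
  · exact h
  intro f hf μ hμ hmax
  have hf' := mem_InvE'.1 hf
  have h1 := antitone_lead hf'.1 hμ hmax
  have h2 := eps_lead hf'.2 hμ hmax
  have h3 : ∀ i, 0 ≤ μ i := fun i => by have := h2 i; linarith
  refine ⟨h3, ?_⟩
  obtain ⟨P, hP, hPL⟩ := ES_LM (fun i => (μ i).toNat) (fun a b hab => Int.toNat_le_toNat (h1 hab))
  have h4 : cst (fun i => (μ i).toNat) = μ := by
    funext i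
    exact Int.toNat_of_nonneg (h3 i)
  rw [h4] at hPL
  refine ⟨P, ?_, hP, hPL⟩
  have := InvE_mul one_mem_InvE hP
  rwa [one_mul] at this

/-- **Weyl group of type C, odd part.** -/
theorem odd_span {f : GR m} (hf : f ∈ InvE m 1) : ∃ g ∈ ES m, f = sp m * g := by
  set E : AddSubgroup (GR m) := (ES m).toAddSubgroup.map (AddMonoidHom.mulLeft (sp m)) with hE
  have h := spanning (m := m) (InvE m 1) E ?_ hf
  · obtain ⟨g, hg, hfg⟩ := h
    exact ⟨g, hg, hfg.symm⟩
  intro f hf μ hμ hmax
  have hf' := mem_InvE'.1 hf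
  have h1 := antitone_lead hf'.1 hμ hmax
  have h2 := eps_lead hf'.2 hμ hmax
  have h3 : ∀ i, 1 ≤ μ i := fun i => by have := h2 i; omega
  refine ⟨fun i => by have := h3 i; linarith, ?_⟩
  obtain ⟨P, hP, hPL⟩ := ES_LM (fun i => (μ i - 1).toNat)
    (fun a b hab => Int.toNat_le_toNat (by have := h1 hab; linarith))
  have h4 : (fun _ => (1 : ℤ)) + cst (fun i => (μ i - 1).toNat) = μ := by
    funext i
    have h5 : ((μ i - 1).toNat : ℤ) = μ i - 1 := Int.toNat_of_nonneg (by have := h3 i; linarith)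
    simp only [Pi.add_apply, cst]
    rw [h5]
    ring
  have h5 := LM_sp.mul hPL
  rw [h4] at h5
  exact ⟨sp m * P, InvE_mul sp_mem hP, ⟨P, hP, rfl⟩, h5⟩

/-- functions supported on the nonnegative vectors -/
noncomputable def NN (m : ℕ) : Subring (GR m) where
  carrier := {f | ∀ ν, f.coeff ν ≠ 0 → ∀ i, 0 ≤ ν i}
  mul_mem' {a b} ha hb ν hν i := by
    obtain ⟨κ, τ, h1, h2, rfl⟩ := supp_mul hν
    exact add_nonneg (ha κ h1 i) (hb τ h2 i)
  add_mem' {a b} ha hb ν hν i := by
    rw [coeff_add, Finsupp.add_apply] at hν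
    by_cases h : a.coeff ν = 0
    · rw [h, zero_add] at hν
      exact hb ν hν i
    · exact ha ν h i
  neg_mem' {a} ha ν hν i := by
    rw [coeff_neg, Finsupp.neg_apply, neg_ne_zero] at hν
    exact ha ν hν i
  one_mem' ν hν i := by
    rw [coeff_single_ne (μ := 0) hν]
    rfl
  zero_mem' ν hν i := absurd rfl hν

theorem eG_NN (j : ℕ) : eG m j ∈ NN m := by
  unfold eG ee
  refine (NN m).sum_mem fun I _ => (NN m).prod_mem fun i _ => ?_
  intro ν hν k
  rw [coeff_single_ne hν, bas, Pi.single_apply]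
  split_ifs <;> norm_num

theorem EG_NN : EG m ≤ NN m := by
  unfold EG
  rw [Subring.closure_le]
  rintro _ ⟨j, rfl⟩
  exact eG_NN j

/-- **Symmetric group.** -/
theorem sym_span {f : GR m} (hf : ∀ (g : Equiv.Perm (Fin m)) μ, f.coeff (μ ∘ g) = f.coeff μ) :
    ∃ (K : ℕ) (g : GR m), g ∈ EG m ∧ f = mon (fun _ => -(K : ℤ)) * g := by
  classical
  have h := spanning (m := m) (InvP m ⊓ NN m : Subring (GR m)).toAddSubgroup (EG m).toAddSubgroup ?_
  · -- shift
    obtain ⟨K, hK⟩ : ∃ K : ℕ, ∀ ν, f.coeff ν ≠ 0 → ∀ i, -(K : ℤ) ≤ ν i := by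
      refine ⟨∑ ν ∈ f.coeff.support, ∑ i, (ν i).natAbs, fun ν hν i => ?_⟩
      have h1 : (ν i).natAbs ≤ ∑ i, (ν i).natAbs :=
        Finset.single_le_sum (f := fun i => (ν i).natAbs) (fun _ _ => Nat.zero_le _) (mem_univ i)
      have h2 : ∑ i, (ν i).natAbs ≤ ∑ ν ∈ f.coeff.support, ∑ i, (ν i).natAbs :=
        Finset.single_le_sum (f := fun ν : Fin m → ℤ => ∑ i, (ν i).natAbs) (fun _ _ => Nat.zero_le _)
          (Finsupp.mem_support_iff.2 hν)
      omega
    set g : GR m := mon (fun _ => (K : ℤ)) * f with hg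
    have hgc : ∀ μ, g.coeff μ = f.coeff (fun i => μ i - K) := by
      intro μ
      rw [hg, mon, coeff_single_mul_apply, one_mul]
      congr 1
      funext i
      simp only [Pi.add_apply, Pi.neg_apply]
      ring
    have hgE : g ∈ (EG m).toAddSubgroup := by
      refine h ⟨?_, ?_⟩
      · rw [SetLike.mem_coe, mem_InvP']
        intro σ μ
        rw [hgc, hgc, ← hf σ (fun i => μ i - K)]
        rfl
      · intro ν hν i
        rw [hgc] at hν
        have := hK _ hν i
        linarith
    refine ⟨K, g, hgE, ?_⟩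
    rw [hg, ← mul_assoc, mon_mul]
    have h0 : (fun _ => -(K : ℤ) : Fin m → ℤ) + (fun _ => (K : ℤ)) = 0 := by
      funext i
      simp
    rw [h0]
    have h1 : (mon 0 : GR m) = 1 := rfl
    rw [h1, one_mul]
  · intro f hf μ hμ hmax
    have hf1 := mem_InvP'.1 hf.1
    have h1 := antitone_lead hf1 hμ hmax
    have h3 : ∀ i, 0 ≤ μ i := hf.2 μ hμ
    refine ⟨h3, ?_⟩
    obtain ⟨P, hP, hPL⟩ := EG_LM (fun i => (μ i).toNat) (fun a b hab => Int.toNat_le_toNat (h1 hab))
    have h4 : cst (fun i => (μ i).toNat) = μ := by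
      funext i
      exact Int.toNat_of_nonneg (h3 i)
    rw [h4] at hPL
    exact ⟨P, ⟨EG_le hP, EG_NN hP⟩, hP, hPL⟩

end Pool.Agent.K7.H58.EP
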