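import Pool.Agent.K7.H58.EP.Bridge
import Pool.Agent.K7.H58.EP.Weyl

/-!
# Reduction to the spin representation
-/

set_option autoImplicit false

namespace Pool.Agent.K7.H58.EP

open Complex Filter Topology Set

variable {n m : ℕ}

/-- evaluation of the characters of the torus of `GL_n` at a family -/
noncomputable def evG (α : GLData n) : GR n →+* Fam :=
  RingHom.pi fun p => (AddMonoidAlgebra.lift ℤ (MonoidAlgebra ℤ ℂˣ) (Fin n → ℤ)
    ((MonoidAlgebra.of ℤ ℂˣ).comp
      { toFun := fun l => ∏ i, α p i ^ (Multiplicative.toAdd l i)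
        map_one' := by simp
        map_mul' := fun a b => by
          rw [← Finset.prod_mul_distrib]
          refine Finset.prod_congr rfl fun i _ => ?_
          rw [toAdd_mul, Pi.add_apply, zpow_add] } : Multiplicative (Fin n → ℤ) →* MonoidAlgebra ℤ ℂˣ)).toRingHom

theorem evG_mon (α : GLData n) (l : Fin n → ℤ) : evG α (mon l) = br (fun p => ∏ i, α p i ^ l i) := by
  funext p
  change (AddMonoidAlgebra.lift ℤ (MonoidAlgebra ℤ ℂˣ) (Fin n → ℤ) _) (AddMonoidAlgebra.single l 1) = _
  rw [AddMonoidAlgebra.lift_single, one_smul]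
  rfl

theorem evG_bas (α : GLData n) (i : Fin n) : evG α (mon (bas i)) = br (fun p => α p i) := by
  rw [evG_mon]
  congr 1
  funext p
  rw [Finset.prod_eq_single i]
  · simp [bas]
  · intro j _ hj
    simp [bas, Pi.single_eq_of_ne hj]
  · intro h
    exact absurd (Finset.mem_univ i) h

theorem evG_neg_bas (α : GLData n) (i : Fin n) : evG α (mon (-bas i)) = br (fun p => (α p i)⁻¹) := by
  rw [evG_mon]
  congr 1
  funext p
  rw [Finset.prod_eq_single i]
  · simp [bas]
  · intro j _ hj
    simp [bas, Pi.single_eq_of_ne hj]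
  · intro h
    exact absurd (Finset.mem_univ i) h

theorem evG_zero (α : GLData n) : evG α (mon 0) = 1 := map_one _

variable (A : AutomorphicSystem)

/-- the exterior powers of the automorphic representations of the general linear groups -/
def KG : Set Fam := {x | ∃ (n : ℕ) (α : GLData n), α ∈ A.gl n ∧ ∃ j : ℕ, x = ee (fun i => br (fun p => α p i)) j}

/-- the ring generated by them -/
noncomputable def KK : Subring Fam := Subring.closure (KG A)

variable {A}

theorem growth_gl {α : GLData n} (h : α ∈ A.gl n) (i : Fin n) :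
    PB (fun p => α p i) ∧ PB (fun p => (α p i)⁻¹) := by
  obtain ⟨c, hc⟩ := A.growth_GL n α h
  exact ⟨⟨c, fun p => (hc p i).1⟩, ⟨c, fun p => (hc p i).2⟩⟩

theorem growth_gsp0 {b : GSpData n} (h : b ∈ A.gsp n) :
    PB (fun p => (b p).1) ∧ PB (fun p => ((b p).1)⁻¹) := by
  obtain ⟨c, hc⟩ := A.growth_GSp n b h
  exact ⟨⟨c, fun p => (hc p).1.1⟩, ⟨c, fun p => (hc p).1.2⟩⟩

theorem growth_gsp {b : GSpData n} (h : b ∈ A.gsp n) (i : Fin n) :
    PB (fun p => (b p).2 i) ∧ PB (fun p => ((b p).2 i)⁻¹) := by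
  obtain ⟨c, hc⟩ := A.growth_GSp n b h
  exact ⟨⟨c, fun p => ((hc p).2 i).1⟩, ⟨c, fun p => ((hc p).2 i).2⟩⟩

theorem PB_gl {α : GLData n} (h : α ∈ A.gl n) (l : Fin n → ℤ) : PB (fun p => ∏ i, α p i ^ l i) :=
  PB.prod _ fun i _ => ((growth_gl h i).1.zpow (growth_gl h i).2 (l i))

theorem PB_gsp {b : GSpData n} (h : b ∈ A.gsp n) (l : ℤ × (Fin n → ℤ)) :
    PB (fun p => (b p).1 ^ l.1 * ∏ i, (b p).2 i ^ l.2 i) :=
  ((growth_gsp0 h).1.zpow (growth_gsp0 h).2 l.1).mul
    (PB.prod _ fun i _ => ((growth_gsp h i).1.zpow (growth_gsp h i).2 (l.2 i)))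

theorem ee_tame {κ : Type*} [Fintype κ] {x : κ → Fam} (h : ∀ i, x i ∈ Tm) (j : ℕ) : ee x j ∈ Tm := by
  unfold ee
  exact Tm.sum_mem fun I _ => Tm.prod_mem fun i _ => h i

theorem KG_tame {x : Fam} (h : x ∈ KG A) : x ∈ Tm := by
  obtain ⟨n, α, hα, j, rfl⟩ := h
  exact ee_tame (fun i => (growth_gl hα i).1.tame) j

theorem KK_tame {x : Fam} (h : x ∈ KK A) : x ∈ Tm := by
  have h1 : KK A ≤ Tm := by
    unfold KK
    rw [Subring.closure_le]
    exact fun x hx => KG_tame hx
  exact h1 h

/-- the Hecke characters -/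
theorem char_mem {χ : Nat.Primes → ℂˣ} (h : (fun p (_ : Fin 1) => χ p) ∈ A.gl 1) : br χ ∈ KK A := by
  refine Subring.subset_closure ⟨1, _, h, 1, ?_⟩
  unfold ee
  rw [Finset.powersetCard_one, Finset.sum_map]
  simp

/-- the spin family -/
noncomputable def spF (b : GSpData m) : Fam := br (fun p => (b p).1) * evG (fun p => (b p).2) (sp m)

theorem spF_eq (b : GSpData m) :
    spF b = br (fun p => (b p).1) * ∏ i : Fin m, (1 + br (fun p => (b p).2 i)) := by
  unfold spF sp
  rw [map_prod]
  congr 1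
  refine Finset.prod_congr rfl fun i _ => ?_
  rw [map_add, map_one, evG_bas]

theorem spF_tame {b : GSpData m} (hb : b ∈ A.gsp m) : spF b ∈ Tm := by
  rw [spF_eq]
  exact Tm.mul_mem (growth_gsp0 hb).1.tame
    (Tm.prod_mem fun i _ => Tm.add_mem Tm.one_mem (growth_gsp hb i).1.tame)

theorem ind_mem {α : GLData n} (hα : α ∈ A.gl n) {b : GSpData m} (hb : b ∈ A.gsp m) (w : ℂ) :
    ind α b w ∈ A.gsp (n + m) :=
  A.induced n m _ (A.twist n α hα w) b hb

theorem tw_pow (w : ℂ) (j : ℕ) : tw w ^ j = tw (j * w) := by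
  induction j with
  | zero => simp [tw_zero]
  | succ j ih =>
    rw [pow_succ, ih, ← tw_add]
    congr 1
    push_cast
    ring

theorem spF_ind (α : GLData n) (b : GSpData m) (w : ℂ) :
    spF (ind α b w) = ∑ j ∈ Finset.range (n + 1), spF b * ee (fun i => br (fun p => α p i)) j * tw (j * w) := by
  have h1 : ∏ i : Fin n, (1 + br (fun p => α p i) * tw w) =
      ∑ j ∈ Finset.range (n + 1), ee (fun i => br (fun p => α p i)) j * tw (j * w) := by
    rw [prod_one_add_eq, Fintype.card_fin]
    exact Finset.sum_congr rfl fun j _ => by rw [tw_pow]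
  rw [spF_eq, spF_eq, Fin.prod_univ_add]
  have h2 : ∏ i : Fin n, (1 + br (fun p => (ind α b w p).2 (Fin.castAdd m i))) =
      ∏ i : Fin n, (1 + br (fun p => α p i) * tw w) := by
    refine Finset.prod_congr rfl fun i _ => ?_
    rw [← br_unr, br_mul]
    congr 2
    funext p
    simp [ind]
  have h3 : ∏ i : Fin m, (1 + br (fun p => (ind α b w p).2 (Fin.natAdd n i))) =
      ∏ i : Fin m, (1 + br (fun p => (b p).2 i)) := by
    refine Finset.prod_congr rfl fun i _ => ?_
    congr 2
    funext p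
    simp [ind]
  rw [h2, h3, h1]
  have h4 : br (fun p => (ind α b w p).1) = br (fun p => (b p).1) := rfl
  rw [h4, Finset.sum_mul, Finset.mul_sum]
  refine Finset.sum_congr rfl fun j _ => ?_
  ring

/-- isolation for sums over `0, …, n` -/
theorem isolate_range {n : ℕ} {x : ℕ → Fam} (hx : ∀ j, x j ∈ Tm)
    (h : ∀ w : ℂ, ∑ j ∈ Finset.range (n + 1), x j * tw (j * w) ∈ Good) :
    ∀ j ≤ n, x j ∈ Good := by
  intro j hj
  have h1 := isolate (J := (Finset.range (n + 1)).map Nat.castEmbedding) (x := fun i : ℤ => x i.toNat)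
    (W := fun k => (-(k : ℝ) : ℝ)) ?_ ?_ ?_ (j : ℤ) ?_
  · simpa using h1
  · intro i _
    exact hx _
  · simp only [Complex.ofReal_re]
    exact tendsto_neg_atTop_atBot.comp tendsto_natCast_atTop_atTop
  · intro k
    rw [Finset.sum_map]
    have := h ((-(k : ℝ) : ℝ) : ℂ)
    simpa using this
  · rw [Finset.mem_map]
    exact ⟨j, Finset.mem_range.2 (Nat.lt_succ_of_le hj), rfl⟩

/-- the hypothesis, in terms of families -/
def SpinGood (A : AutomorphicSystem) (𝒩 : Set ℕ) : Prop := ∀ n ∈ 𝒩, 1 ≤ n → ∀ b ∈ A.gsp n, spF b ∈ Good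

theorem spin_all {𝒩 : Set ℕ} (h𝒩 : 𝒩.Infinite) (h : SpinGood A 𝒩) :
    ∀ (m : ℕ) (b : GSpData m), b ∈ A.gsp m → spF b ∈ Good := by
  have key : ∀ d m : ℕ, 1 ≤ d + m → d + m ∈ 𝒩 → ∀ b ∈ A.gsp m, spF b ∈ Good := by
    intro d
    induction d with
    | zero =>
      intro m hm hmem b hb
      rw [zero_add] at hm hmem
      exact h m hmem hm b hb
    | succ d ih =>
      intro m _ hmem b hb
      have h1 : ∀ w : ℂ, spF (ind (fun _ _ => 1 : GLData 1) b w) ∈ Good := by
        intro w
        refine ih (1 + m) (by omega) ?_ _ (ind_mem A.trivial hb w)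
        have : d + (1 + m) = d + 1 + m := by ring
        rwa [this]
      have h2 := isolate_range (n := 1)
        (x := fun j => spF b * ee (fun i : Fin 1 => br (fun p => (fun _ _ => 1 : GLData 1) p i)) j) ?_ ?_ 0
        (by norm_num)
      · have h3 : ee (fun i : Fin 1 => br (fun p => (fun _ _ => 1 : GLData 1) p i)) 0 = 1 := by
          unfold ee
          rw [Finset.powersetCard_zero, Finset.sum_singleton, Finset.prod_empty]
        simp only [h3, mul_one] at h2
        exact h2
      · intro j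
        exact Tm.mul_mem (spF_tame hb) (ee_tame (fun _ => PB.one.tame) j)
      · intro w
        rw [← spF_ind]
        exact h1 w
  intro m b hb
  obtain ⟨N, hN, hmN⟩ := h𝒩.exists_gt m
  have h1 : N - m + m = N := by omega
  refine key (N - m) m (by omega) (by rwa [h1]) b hb

theorem spin_mul {𝒩 : Set ℕ} (h𝒩 : 𝒩.Infinite) (h : SpinGood A 𝒩) {x : Fam}
    (hx : x ∈ Submonoid.closure (KG A)) : ∀ (m : ℕ) (b : GSpData m), b ∈ A.gsp m → spF b * x ∈ Good := by
  induction hx using Submonoid.closure_induction_left with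
  | one =>
    intro m b hb
    rw [mul_one]
    exact spin_all h𝒩 h m b hb
  | mul_left g hg y hy ih =>
    intro m b hb
    obtain ⟨n, α, hα, j, rfl⟩ := hg
    have hyT : y ∈ Tm := by
      have : Submonoid.closure (KG A) ≤ Tm.toSubmonoid := by
        rw [Submonoid.closure_le]
        exact fun x hx => KG_tame hx
      exact this hy
    by_cases hj : j ≤ n
    · have h2 := isolate_range (n := n)
        (x := fun j => spF b * ee (fun i => br (fun p => α p i)) j * y) ?_ ?_ j hj
      · rw [← mul_assoc]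
        exact h2
      · intro i
        exact Tm.mul_mem (Tm.mul_mem (spF_tame hb) (ee_tame (fun i => (growth_gl hα i).1.tame) i)) hyT
      · intro w
        have h3 := ih (n + m) (ind α b w) (ind_mem hα hb w)
        rw [spF_ind, Finset.sum_mul] at h3
        have h4 : ∑ i ∈ Finset.range (n + 1),
            spF b * ee (fun i => br (fun p => α p i)) i * y * tw (i * w) =
            ∑ i ∈ Finset.range (n + 1),
            spF b * ee (fun i => br (fun p => α p i)) i * tw (i * w) * y :=
          Finset.sum_congr rfl fun i _ => by ring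
        rw [h4]
        exact h3
    · rw [ee_eq_zero _ (by rw [Fintype.card_fin]; omega), zero_mul, mul_zero]
      exact Good.zero_mem

/-- **The products of the spin family with the ring `KK` are good.** -/
theorem spin_mul_KK {𝒩 : Set ℕ} (h𝒩 : 𝒩.Infinite) (h : SpinGood A 𝒩) {x : Fam} (hx : x ∈ KK A)
    {b : GSpData m} (hb : b ∈ A.gsp m) : spF b * x ∈ Good := by
  unfold KK at hx
  rw [Subring.mem_closure_iff] at hx
  induction hx using AddSubgroup.closure_induction with
  | mem x hx => exact spin_mul h𝒩 h hx m b hb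
  | zero => rw [mul_zero]; exact Good.zero_mem
  | add x y _ _ hx hy => rw [mul_add]; exact Good.add_mem hx hy
  | neg x _ hx => rw [mul_neg]; exact Good.neg_mem hx

theorem KK_good {𝒩 : Set ℕ} (h𝒩 : 𝒩.Infinite) (h : SpinGood A 𝒩) {x : Fam} (hx : x ∈ KK A) :
    x ∈ Good := by
  have hb : (fun _ => ((1 : ℂˣ), Fin.elim0) : GSpData 0) ∈ A.gsp 0 := (A.gsp_zero _).2 A.trivial
  have h1 := spin_mul_KK h𝒩 h hx hb
  have h2 : spF (fun _ => ((1 : ℂˣ), Fin.elim0) : GSpData 0) = 1 := by
    rw [spF_eq]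
    simp [br_one]
  rwa [h2, one_mul] at h1

/-- the ring generated by the exterior powers of `σ` -/
theorem evG_EG {α : GLData n} (hα : α ∈ A.gl n) {g : GR n} (hg : g ∈ EG n) : evG α g ∈ KK A := by
  have h1 : EG n ≤ (KK A).comap (evG α) := by
    unfold EG
    rw [Subring.closure_le]
    rintro _ ⟨j, rfl⟩
    change evG α (eG n j) ∈ KK A
    unfold eG
    rw [map_ee]
    simp only [evG_bas]
    exact Subring.subset_closure ⟨n, α, hα, j, rfl⟩
  exact h1 hg

theorem ee_equiv {R κ κ' : Type*} [CommRing R] [Fintype κ] [Fintype κ'] {x : κ → R} {y : κ' → R}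
    (σ : κ ≃ κ') (h : ∀ a, x a = y (σ a)) (j : ℕ) : ee x j = ee y j := by
  apply ee_congr
  exact Fintype.prod_equiv σ _ _ fun a => by rw [h]

/-- the indices of the standard representation -/
def stdEquiv (m : ℕ) : (Fin m ⊕ Fin m) ⊕ Unit ≃ Fin (m + m + 1) :=
  (Equiv.sumCongr finSumFinEquiv finOneEquiv.symm).trans finSumFinEquiv

theorem ev_std {b : GSpData m} (a : (Fin m ⊕ Fin m) ⊕ Unit) :
    evG (fun p => (b p).2) (mon (sv a)) = br (fun p =>
      (Fin.snoc (Fin.append (b p).2 (fun i => ((b p).2 i)⁻¹)) 1 : Fin (m + m + 1) → ℂˣ) (stdEquiv m a)) := by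
  rcases a with (i | i) | u
  · have h1 : stdEquiv m (Sum.inl (Sum.inl i)) = Fin.castSucc (Fin.castAdd m i) := rfl
    rw [h1]
    simp only [Fin.snoc_castSucc, Fin.append_left]
    exact evG_bas _ i
  · have h1 : stdEquiv m (Sum.inl (Sum.inr i)) = Fin.castSucc (Fin.natAdd m i) := rfl
    rw [h1]
    simp only [Fin.snoc_castSucc, Fin.append_right]
    exact evG_neg_bas _ i
  · have h1 : stdEquiv m (Sum.inr u) = Fin.last (m + m) := rfl
    rw [h1]
    simp only [Fin.snoc_last]
    exact evG_zero _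

theorem evG_eS {b : GSpData m} (hb : b ∈ A.gsp m) (j : ℕ) : evG (fun p => (b p).2) (eS m j) ∈ KK A := by
  unfold eS
  rw [map_ee]
  refine Subring.subset_closure ⟨m + m + 1, _, A.standard m b hb, j, ?_⟩
  exact ee_equiv (stdEquiv m) (fun a => ev_std a) j

theorem evG_ES {b : GSpData m} (hb : b ∈ A.gsp m) {g : GR m} (hg : g ∈ ES m) :
    evG (fun p => (b p).2) g ∈ KK A := by
  have h1 : ES m ≤ (KK A).comap (evG (fun p => (b p).2)) := by
    unfold ES
    rw [Subring.closure_le]
    rintro _ ⟨j, rfl⟩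
    exact evG_eS hb j
  exact h1 hg

/-- the family of a representation of `GL_n` -/
noncomputable def XG (α : GLData n) (τ : GLRep n) : Fam :=
  XX τ.mult.support (fun l p => ∏ i, α p i ^ l i) τ.mult

/-- the family of a multiset of weights -/
noncomputable def XW (b : GSpData n) (M : (ℤ × (Fin n → ℤ)) →₀ ℕ) : Fam :=
  XX M.support (fun l p => (b p).1 ^ l.1 * ∏ i, (b p).2 i ^ l.2 i) M

/-- the family of a representation of `GSpin` -/
noncomputable def XS (b : GSpData n) (ρ : GSpinRep n) : Fam := XW b ρ.mult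

/-- the character of `τ` -/
noncomputable def chG (τ : GLRep n) : GR n := ∑ l ∈ τ.mult.support, (τ.mult l) • mon l

theorem coeff_chG (τ : GLRep n) (l : Fin n → ℤ) : (chG τ).coeff l = τ.mult l := by
  classical
  unfold chG
  rw [AddMonoidAlgebra.coeff_sum, Finsupp.finsetSum_apply]
  have h1 : ∀ i : Fin n → ℤ, ((τ.mult i • mon i : GR n)).coeff l = if l = i then (τ.mult i : ℤ) else 0 := by
    intro i
    rw [AddMonoidAlgebra.coeff_smul, Finsupp.smul_apply, mon, AddMonoidAlgebra.coeff_single,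
      Finsupp.single_apply]
    by_cases h : i = l
    · subst h
      simp
    · rw [if_neg h, if_neg fun h' => h h'.symm, smul_zero]
  simp only [h1]
  rw [Finset.sum_ite_eq]
  split_ifs with h
  · rfl
  · rw [Finsupp.notMem_support_iff.1 h]
    rfl

theorem XG_eq (α : GLData n) (τ : GLRep n) : XG α τ = evG α (chG τ) := by
  unfold XG XX chG
  rw [map_sum]
  refine Finset.sum_congr rfl fun l _ => ?_
  rw [map_nsmul, evG_mon]

theorem XG_mem {α : GLData n} (hα : α ∈ A.gl n) (τ : GLRep n) : XG α τ ∈ KK A := by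
  obtain ⟨K, g, hg, hfg⟩ := sym_span (f := chG τ) (fun g μ => by
    rw [coeff_chG, coeff_chG, τ.perm])
  rw [XG_eq, hfg, map_mul]
  refine (KK A).mul_mem ?_ (evG_EG hα hg)
  rw [evG_mon]
  refine char_mem ?_
  have := A.central n α hα (-(K : ℤ))
  simpa only [Finset.prod_zpow] using this

/-- the part of the character of `ρ` with first exponent `e₀` -/
noncomputable def chS (ρ : GSpinRep n) (e₀ : ℤ) : GR n :=
  ∑ l ∈ ρ.mult.support with l.1 = e₀, (ρ.mult l) • mon l.2

theorem coeff_chS (ρ : GSpinRep n) (e₀ : ℤ) (l : Fin n → ℤ) : (chS ρ e₀).coeff l = ρ.mult (e₀, l) := by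
  classical
  unfold chS
  rw [AddMonoidAlgebra.coeff_sum, Finsupp.finsetSum_apply]
  have h1 : ∀ i ∈ ρ.mult.support.filter (fun l => l.1 = e₀), ((ρ.mult i • mon i.2 : GR n)).coeff l =
      if (e₀, l) = i then (ρ.mult i : ℤ) else 0 := by
    intro i hi
    have h2 := (Finset.mem_filter.1 hi).2
    rw [AddMonoidAlgebra.coeff_smul, Finsupp.smul_apply, mon, AddMonoidAlgebra.coeff_single,
      Finsupp.single_apply]
    by_cases h : i.2 = l
    · have h3 : (e₀, l) = i := by rw [← h2, ← h]
      rw [if_pos h, if_pos h3]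
      simp
    · have h3 : (e₀, l) ≠ i := fun h' => h (by rw [← h'])
      rw [if_neg h, if_neg h3, smul_zero]
  rw [Finset.sum_congr rfl h1, Finset.sum_ite_eq]
  split_ifs with h
  · rfl
  · rw [Finset.mem_filter, not_and] at h
    by_contra hcon
    have h2 : (e₀, l) ∈ ρ.mult.support := by
      rw [Finsupp.mem_support_iff]
      exact fun h3 => hcon (by rw [h3]; rfl)
    exact h h2 rfl

theorem XS_eq (b : GSpData n) (ρ : GSpinRep n) :
    XS b ρ = ∑ e ∈ ρ.mult.support.image Prod.fst,
      br (fun p => (b p).1 ^ e) * evG (fun p => (b p).2) (chS ρ e) := by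
  classical
  unfold XS XW XX
  rw [← Finset.sum_fiberwise_of_maps_to (s := ρ.mult.support) (t := ρ.mult.support.image Prod.fst)
    (g := Prod.fst) (fun l hl => Finset.mem_image_of_mem _ hl)]
  refine Finset.sum_congr rfl fun e _ => ?_
  unfold chS
  rw [map_sum, Finset.mul_sum]
  refine Finset.sum_congr rfl fun l hl => ?_
  obtain ⟨_, rfl⟩ := Finset.mem_filter.1 hl
  rw [map_nsmul, evG_mon, mul_smul_comm, br_mul]

/-- shift of the exponents by `-k (1, …, 1)` -/
theorem coeff_shift (f : GR n) (k : ℤ) (μ : Fin n → ℤ) :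
    (mon (fun _ => -k) * f).coeff μ = f.coeff (fun i => μ i + k) := by
  rw [mon, AddMonoidAlgebra.coeff_single_mul_apply, one_mul]
  congr 1
  funext i
  simp only [Pi.add_apply, Pi.neg_apply]
  ring

theorem shift_mem (ρ : GSpinRep n) (k ε : ℤ) : mon (fun _ => -k) * chS ρ (2 * k + ε) ∈ InvE n ε := by
  rw [mem_InvE']
  constructor
  · intro g μ
    rw [coeff_shift, coeff_shift, coeff_chS, coeff_chS]
    have := ρ.perm g (2 * k + ε) (fun i => μ i + k)
    rw [← this]
    rfl
  · intro i μ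
    rw [coeff_shift, coeff_shift, coeff_chS, coeff_chS]
    have := ρ.flip i (2 * k + ε) (fun i => μ i + k)
    rw [← this]
    congr 3
    funext j
    by_cases h : j = i
    · subst h
      simp
      ring
    · simp [Function.update_of_ne h]

theorem unshift (f : GR n) (k : ℤ) : f = mon (fun _ => k) * (mon (fun _ => -k) * f) := by
  rw [← mul_assoc, mon_mul]
  have h0 : (fun _ => k : Fin n → ℤ) + (fun _ => -k) = 0 := by
    funext i
    simp
  rw [h0]
  have h1 : (mon 0 : GR n) = 1 := rfl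
  rw [h1, one_mul]

/-- the summands of `XS` -/
theorem part_mem {b : GSpData m} (hb : b ∈ A.gsp m) (ρ : GSpinRep m) (e : ℤ) :
    ∃ x ∈ KK A, ∃ y ∈ KK A, br (fun p => (b p).1 ^ e) * evG (fun p => (b p).2) (chS ρ e) = x + spF b * y := by
  have hsim : ∀ k : ℤ, br (fun p => (b p).1 ^ (2 * k)) * evG (fun p => (b p).2) (mon (fun _ => k)) ∈ KK A := by
    intro k
    rw [evG_mon, br_mul]
    refine char_mem ?_
    have h1 := A.similitude m b hb k
    have h2 : (fun p (_ : Fin 1) => (b p).1 ^ (2 * k) * ∏ i, (b p).2 i ^ k) =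
        fun p _ => ((b p).1 ^ 2 * ∏ i, (b p).2 i) ^ k := by
      funext p _
      rw [mul_zpow, Finset.prod_zpow, zpow_mul]
      rfl
    rw [h2]
    exact h1
  rcases Int.emod_two_eq_zero_or_one e with h | h
  · obtain ⟨k, hk⟩ : ∃ k, e = 2 * k + 0 := ⟨e / 2, by omega⟩
    subst hk
    have h1 := even_span (shift_mem ρ k 0)
    refine ⟨_, (KK A).mul_mem (hsim k) (evG_ES hb h1), 0, (KK A).zero_mem, ?_⟩
    conv_lhs => rw [unshift (chS ρ (2 * k + 0)) k, map_mul]
    rw [mul_zero, add_zero, ← mul_assoc, add_zero]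
  · obtain ⟨k, hk⟩ : ∃ k, e = 2 * k + 1 := ⟨e / 2, by omega⟩
    subst hk
    obtain ⟨g, hg, hfg⟩ := odd_span (shift_mem ρ k 1)
    refine ⟨0, (KK A).zero_mem, _, (KK A).mul_mem (hsim k) (evG_ES hb hg), ?_⟩
    conv_lhs => rw [unshift (chS ρ (2 * k + 1)) k, map_mul, hfg, map_mul]
    have h2 : br (fun p => (b p).1 ^ (2 * k + 1)) = br (fun p => (b p).1) * br (fun p => (b p).1 ^ (2 * k)) := by
      rw [br_mul]
      congr 1
      funext p
      rw [zpow_add_one, mul_comm]
    rw [h2, zero_add]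
    unfold spF
    ring

theorem XS_mem {b : GSpData m} (hb : b ∈ A.gsp m) (ρ : GSpinRep m) :
    ∃ x ∈ KK A, ∃ y ∈ KK A, XS b ρ = x + spF b * y := by
  classical
  rw [XS_eq]
  have key : ∀ s : Finset ℤ, ∃ x ∈ KK A, ∃ y ∈ KK A, ∑ e ∈ s,
      br (fun p => (b p).1 ^ e) * evG (fun p => (b p).2) (chS ρ e) = x + spF b * y := by
    intro s
    induction s using Finset.induction_on with
    | empty => exact ⟨0, (KK A).zero_mem, 0, (KK A).zero_mem, by simp⟩
    | insert a s ha ih =>
      obtain ⟨x, hx, y, hy, h1⟩ := ih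
      obtain ⟨x', hx', y', hy', h2⟩ := part_mem hb ρ a
      refine ⟨x' + x, (KK A).add_mem hx' hx, y' + y, (KK A).add_mem hy' hy, ?_⟩
      rw [Finset.sum_insert ha, h1, h2]
      ring
  exact key _

/-- the family of the spin representation -/
theorem XS_spin (b : GSpData m) : XS b (spin m) = spF b := by
  classical
  rw [spF_eq, Finset.prod_one_add, Finset.mul_sum]
  unfold XS XW XX
  have hsupp : (spin m).mult.support = ((Finset.univ : Finset (Finset (Fin m))).image
      fun I => ((1 : ℤ), fun i : Fin m => if i ∈ I then (1 : ℤ) else 0)) := by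
    ext ⟨e₀, e⟩
    rw [Finsupp.mem_support_iff]
    simp only [spin, Finsupp.onFinset_apply]
    rw [Finset.mem_image]
    constructor
    · intro h
      have h1 : e₀ = 1 ∧ ∀ i, e i = 0 ∨ e i = 1 := by
        by_contra hcon
        exact h (if_neg hcon)
      refine ⟨Finset.univ.filter fun i => e i = 1, Finset.mem_univ _, ?_⟩
      rw [Prod.mk.injEq]
      refine ⟨h1.1.symm, ?_⟩
      funext i
      rcases h1.2 i with h2 | h2 <;> simp [h2]
    · rintro ⟨I, _, hI⟩
      rw [Prod.mk.injEq] at hI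
      obtain ⟨rfl, rfl⟩ := hI
      rw [if_pos]
      · norm_num
      · refine ⟨rfl, fun i => ?_⟩
        by_cases h : i ∈ I <;> simp [h]
  rw [hsupp, Finset.sum_image, Finset.powerset_univ]
  · refine Finset.sum_congr rfl fun I _ => ?_
    have h1 : (spin m).mult ((1 : ℤ), fun i : Fin m => if i ∈ I then (1 : ℤ) else 0) = 1 := by
      simp only [spin, Finsupp.onFinset_apply]
      rw [if_pos]
      refine ⟨trivial, fun i => ?_⟩
      by_cases h : i ∈ I <;> simp [h]
    rw [h1, one_smul]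
    have h2 : ∀ I : Finset (Fin m), ∏ i ∈ I, br (fun p => (b p).2 i) = br (fun p => ∏ i ∈ I, (b p).2 i) := by
      intro I
      induction I using Finset.induction_on with
      | empty => simp [br_one]
      | insert a s ha ih => rw [Finset.prod_insert ha, ih, br_mul]; simp only [Finset.prod_insert ha]
    rw [h2, br_mul]
    congr 1
    funext p
    change (b p).1 ^ (1 : ℤ) * ∏ i, (b p).2 i ^ (if i ∈ I then (1 : ℤ) else 0) = _
    rw [zpow_one]
    congr 1
    rw [← Finset.prod_filter_mul_prod_filter_not Finset.univ (fun i => i ∈ I)]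
    simp only [Finset.filter_mem_eq_inter, Finset.univ_inter]
    have h3 : ∏ i ∈ Finset.univ.filter (fun i => ¬ i ∈ I), (b p).2 i ^ (if i ∈ I then (1 : ℤ) else 0) = 1 := by
      refine Finset.prod_eq_one fun i hi => ?_
      rw [if_neg (Finset.mem_filter.1 hi).2, zpow_zero]
    rw [h3, mul_one]
    exact Finset.prod_congr rfl fun i hi => by rw [if_pos hi, zpow_one]
  · intro I _ J _ hIJ
    rw [Prod.mk.injEq] at hIJ
    ext i
    have := congrFun hIJ.2 i
    by_cases h1 : i ∈ I <;> by_cases h2 : i ∈ J <;> simp_all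

theorem continues_XW {b : GSpData m} (hb : b ∈ A.gsp m) (M : (ℤ × (Fin m → ℤ)) →₀ ℕ) (S : Finset Nat.Primes) :
    Continues (LW S b M) ↔ XW b M ∈ Good :=
  continues_iff (S := S) (c := M) fun l _ => PB_gsp hb l

theorem continues_XS {b : GSpData m} (hb : b ∈ A.gsp m) (ρ : GSpinRep m) (S : Finset Nat.Primes) :
    Continues (LGSp S b ρ) ↔ XS b ρ ∈ Good := continues_XW hb ρ.mult S

end Pool.Agent.K7.H58.EP
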