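import Pool.Agent.K7.H58.EP.Glue

/-!
# The ring of families of virtual eigenvalue sets and the Euler products attached to its elements
-/

set_option autoImplicit false

namespace Pool.Agent.K7.H58.EP

open Complex Filter Topology Set

/-- for every prime a virtual finite set of nonzero complex numbers -/
abbrev Fam := Nat.Primes → MonoidAlgebra ℤ ℂˣ

theorem p_pos (p : Nat.Primes) : (0 : ℝ) < ((p : ℕ) : ℝ) := by exact_mod_cast p.2.pos

theorem one_lt_p (p : Nat.Primes) : (1 : ℝ) < ((p : ℕ) : ℝ) := by exact_mod_cast p.2.one_lt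

theorem two_le_p (p : Nat.Primes) : (2 : ℝ) ≤ ((p : ℕ) : ℝ) := by exact_mod_cast p.2.two_le

theorem pc_ne (p : Nat.Primes) : ((p : ℕ) : ℂ) ≠ 0 := by exact_mod_cast p.2.ne_zero

/-- `p ^ (-s)` as a unit -/
noncomputable def yy (p : Nat.Primes) (s : ℂ) : ℂˣ :=
  Units.mk0 (((p : ℕ) : ℂ) ^ (-s)) (by
    rw [Ne, Complex.cpow_eq_zero_iff]
    exact fun h => pc_ne p h.1)

theorem coe_yy (p : Nat.Primes) (s : ℂ) : ((yy p s : ℂˣ) : ℂ) = ((p : ℕ) : ℂ) ^ (-s) := rfl

theorem yy_add (p : Nat.Primes) (s t : ℂ) : yy p (s + t) = yy p s * yy p t := by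
  apply Units.ext
  rw [Units.val_mul, coe_yy, coe_yy, coe_yy, neg_add, Complex.cpow_add _ _ (pc_ne p)]

theorem yy_zero (p : Nat.Primes) : yy p 0 = 1 := by
  apply Units.ext
  rw [coe_yy]
  simp

theorem norm_yy (p : Nat.Primes) (s : ℂ) : ‖((yy p s : ℂˣ) : ℂ)‖ = ((p : ℕ) : ℝ) ^ (-s.re) := by
  rw [coe_yy]
  have := Complex.norm_cpow_eq_rpow_re_of_pos (p_pos p) (-s)
  simpa using this

/-- logarithm of the local factor -/
noncomputable def ell (y : ℂ) : MonoidAlgebra ℤ ℂˣ →+ ℂ where
  toFun x := x.coeff.sum fun z n => (n : ℂ) * (-Complex.log (1 - (z : ℂ) * y))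
  map_zero' := by simp
  map_add' x y' := by
    rw [MonoidAlgebra.coeff_add, Finsupp.sum_add_index']
    · intro a; simp
    · intro a b c; push_cast; ring

theorem ell_single (y : ℂ) (z : ℂˣ) (n : ℤ) :
    ell y (MonoidAlgebra.single z n) = (n : ℂ) * (-Complex.log (1 - (z : ℂ) * y)) := by
  change (MonoidAlgebra.single z n).coeff.sum
    (fun z n => (n : ℂ) * (-Complex.log (1 - (z : ℂ) * y))) = _
  rw [MonoidAlgebra.coeff_single, Finsupp.sum_single_index]
  simp

theorem ell_mul_single (y : ℂ) (x : MonoidAlgebra ℤ ℂˣ) (u : ℂˣ) :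
    ell y (x * MonoidAlgebra.single u 1) = ell ((u : ℂ) * y) x := by
  induction x using MonoidAlgebra.induction_linear with
  | zero => simp
  | add f g hf hg => rw [add_mul, map_add, map_add, hf, hg]
  | single z n =>
    rw [MonoidAlgebra.single_mul_single, ell_single, ell_single]
    push_cast
    ring_nf

/-- `log L(s, x)` -/
noncomputable def Lam (x : Fam) (s : ℂ) : ℂ := ∑' p : Nat.Primes, ell ((yy p s : ℂˣ) : ℂ) (x p)

/-- convergence and analyticity in the half-plane `Re s > c` -/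
def An (c : ℝ) (x : Fam) : Prop :=
  (∀ s : ℂ, c < s.re → Summable fun p : Nat.Primes => ell ((yy p s : ℂˣ) : ℂ) (x p)) ∧
    DifferentiableOn ℂ (Lam x) {s : ℂ | c < s.re}

theorem An.mono {c d : ℝ} {x : Fam} (h : An c x) (hcd : c ≤ d) : An d x :=
  ⟨fun s hs => h.1 s (lt_of_le_of_lt hcd hs), h.2.mono (hp_mono hcd)⟩

theorem Lam_add {x y : Fam} {s : ℂ} (hx : Summable fun p : Nat.Primes => ell ((yy p s : ℂˣ) : ℂ) (x p))
    (hy : Summable fun p : Nat.Primes => ell ((yy p s : ℂˣ) : ℂ) (y p)) :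
    Lam (x + y) s = Lam x s + Lam y s := by
  unfold Lam
  rw [← hx.tsum_add hy]
  exact tsum_congr fun p => by rw [Pi.add_apply, map_add]

theorem Lam_neg (x : Fam) (s : ℂ) : Lam (-x) s = -Lam x s := by
  unfold Lam
  rw [← tsum_neg]
  exact tsum_congr fun p => by rw [Pi.neg_apply, map_neg]

theorem Lam_zero (s : ℂ) : Lam 0 s = 0 := by
  unfold Lam
  simp

theorem An.add {c : ℝ} {x y : Fam} (hx : An c x) (hy : An c y) : An c (x + y) := by
  refine ⟨fun s hs => ?_, ?_⟩
  · refine ((hx.1 s hs).add (hy.1 s hs)).congr fun p => ?_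
    rw [Pi.add_apply, map_add]
  · refine (hx.2.add hy.2).congr fun s hs => ?_
    exact Lam_add (hx.1 s hs) (hy.1 s hs)

theorem An.neg {c : ℝ} {x : Fam} (hx : An c x) : An c (-x) := by
  refine ⟨fun s hs => ?_, ?_⟩
  · refine (hx.1 s hs).neg.congr fun p => ?_
    rw [Pi.neg_apply, map_neg]
  · refine hx.2.neg.congr fun s _ => ?_
    exact Lam_neg x s

theorem An.zero (c : ℝ) : An c 0 := by
  refine ⟨fun s _ => ?_, ?_⟩
  · simp only [Pi.zero_apply, map_zero]
    exact summable_zero
  · exact (differentiableOn_const (0 : ℂ)).congr fun s _ => Lam_zero s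

theorem An.sum {c : ℝ} {ι : Type*} {J : Finset ι} {x : ι → Fam} (h : ∀ j ∈ J, An c (x j)) :
    An c (∑ j ∈ J, x j) := by
  classical
  induction J using Finset.induction_on with
  | empty => simpa using An.zero c
  | insert a s ha ih =>
    rw [Finset.sum_insert ha]
    exact (h a (Finset.mem_insert_self _ _)).add (ih fun j hj => h j (Finset.mem_insert_of_mem hj))

theorem Lam_sum {ι : Type*} {J : Finset ι} {x : ι → Fam} {s : ℂ}
    (h : ∀ j ∈ J, Summable fun p : Nat.Primes => ell ((yy p s : ℂˣ) : ℂ) (x j p)) :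
    Lam (∑ j ∈ J, x j) s = ∑ j ∈ J, Lam (x j) s ∧
      Summable fun p : Nat.Primes => ell ((yy p s : ℂˣ) : ℂ) ((∑ j ∈ J, x j) p) := by
  classical
  induction J using Finset.induction_on with
  | empty =>
    refine ⟨by simpa using Lam_zero s, ?_⟩
    simp only [Finset.sum_empty, Pi.zero_apply, map_zero]
    exact summable_zero
  | insert a t ha ih =>
    rw [Finset.sum_insert ha, Finset.sum_insert ha]
    have h1 := h a (Finset.mem_insert_self _ _)
    have h2 := ih fun j hj => h j (Finset.mem_insert_of_mem hj)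
    refine ⟨by rw [Lam_add h1 h2.2, h2.1], ?_⟩
    refine (h1.add h2.2).congr fun p => ?_
    rw [Pi.add_apply, map_add]

/-- the twist by `|.|^w` -/
noncomputable def tw (w : ℂ) : Fam := fun p => MonoidAlgebra.single (yy p w) 1

theorem tw_add (w z : ℂ) : tw (w + z) = tw w * tw z := by
  funext p
  rw [Pi.mul_apply, tw, tw, tw, MonoidAlgebra.single_mul_single, yy_add, one_mul]

theorem tw_zero : tw 0 = 1 := by
  funext p
  rw [tw, yy_zero]
  rfl

theorem ell_tw (x : Fam) (w s : ℂ) (p : Nat.Primes) :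
    ell ((yy p s : ℂˣ) : ℂ) ((x * tw w) p) = ell ((yy p (s + w) : ℂˣ) : ℂ) (x p) := by
  rw [Pi.mul_apply, tw, ell_mul_single, yy_add, Units.val_mul, mul_comm]

theorem Lam_tw (x : Fam) (w s : ℂ) : Lam (x * tw w) s = Lam x (s + w) := by
  unfold Lam
  exact tsum_congr fun p => ell_tw x w s p

theorem summable_tw {x : Fam} {w s : ℂ}
    (h : Summable fun p : Nat.Primes => ell ((yy p (s + w) : ℂˣ) : ℂ) (x p)) :
    Summable fun p : Nat.Primes => ell ((yy p s : ℂˣ) : ℂ) ((x * tw w) p) :=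
  h.congr fun p => (ell_tw x w s p).symm

/-- at every prime zero or one number, of polynomial growth -/
def Basic (x : Fam) : Prop :=
  ∃ c : ℝ, ∀ p : Nat.Primes, x p = 0 ∨ ∃ z : ℂˣ, x p = MonoidAlgebra.single z 1 ∧
    ‖(z : ℂ)‖ ≤ ((p : ℕ) : ℝ) ^ c

theorem Basic.mul {x y : Fam} (hx : Basic x) (hy : Basic y) : Basic (x * y) := by
  obtain ⟨c, hc⟩ := hx
  obtain ⟨d, hd⟩ := hy
  refine ⟨c + d, fun p => ?_⟩
  rcases hc p with h1 | ⟨z, h1, h1'⟩
  · left; rw [Pi.mul_apply, h1, zero_mul]
  rcases hd p with h2 | ⟨w, h2, h2'⟩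
  · left; rw [Pi.mul_apply, h2, mul_zero]
  right
  refine ⟨z * w, by rw [Pi.mul_apply, h1, h2, MonoidAlgebra.single_mul_single, one_mul], ?_⟩
  rw [Units.val_mul, norm_mul, Real.rpow_add (p_pos p)]
  exact mul_le_mul h1' h2' (norm_nonneg _) (Real.rpow_nonneg (p_pos p).le _)

theorem Basic.one : Basic 1 := ⟨0, fun p => Or.inr ⟨1, rfl, by simp⟩⟩

theorem Basic.tw (w : ℂ) : Basic (tw w) :=
  ⟨-w.re, fun p => Or.inr ⟨yy p w, rfl, (norm_yy p w).le⟩⟩

/-- the basic families -/
noncomputable def BS : Submonoid Fam where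
  carrier := {x | Basic x}
  mul_mem' := Basic.mul
  one_mem' := Basic.one

/-- the tame families: the additive combinations of the basic ones -/
noncomputable def Tm : Subring Fam := Subring.closure (BS : Set Fam)

theorem tame_iff {x : Fam} : x ∈ Tm ↔ x ∈ AddSubgroup.closure (BS : Set Fam) := by
  unfold Tm
  rw [Subring.mem_closure_iff, Submonoid.closure_eq]

theorem Basic.tame {x : Fam} (h : Basic x) : x ∈ Tm := Subring.subset_closure h

theorem one_sub_mem {w : ℂ} (hw : ‖w‖ < 1) : 1 - w ∈ slitPlane := by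
  have := Complex.mem_slitPlane_of_norm_lt_one (z := -w) (by rwa [norm_neg])
  rwa [← sub_eq_add_neg] at this

theorem Basic.exists_an {x : Fam} (hx : Basic x) : ∃ c : ℝ, An c x := by
  obtain ⟨c, hc⟩ := hx
  have hu : Summable fun p : Nat.Primes => 2 * ((p : ℕ) : ℝ) ^ (-2 : ℝ) := by
    refine Summable.mul_left _ ?_
    exact Nat.Primes.summable_rpow.2 (by norm_num)
  have hsmall : ∀ (p : Nat.Primes) (z : ℂˣ) (s : ℂ), ‖(z : ℂ)‖ ≤ ((p : ℕ) : ℝ) ^ c → c + 2 < s.re →
      ‖(z : ℂ) * ((yy p s : ℂˣ) : ℂ)‖ ≤ ((p : ℕ) : ℝ) ^ (-2 : ℝ) := by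
    intro p z s hz hs
    rw [norm_mul, norm_yy]
    calc ‖(z : ℂ)‖ * ((p : ℕ) : ℝ) ^ (-s.re) ≤ ((p : ℕ) : ℝ) ^ c * ((p : ℕ) : ℝ) ^ (-s.re) :=
          mul_le_mul_of_nonneg_right hz (Real.rpow_nonneg (p_pos p).le _)
      _ = ((p : ℕ) : ℝ) ^ (c - s.re) := by rw [← Real.rpow_add (p_pos p)]; ring_nf
      _ ≤ _ := Real.rpow_le_rpow_of_exponent_le (one_lt_p p).le (by linarith)
  have hquart : ∀ p : Nat.Primes, ((p : ℕ) : ℝ) ^ (-2 : ℝ) ≤ 1 / 4 := by
    intro p
    have h1 : ((p : ℕ) : ℝ) ^ (-2 : ℝ) = (((p : ℕ) : ℝ) ^ 2)⁻¹ := by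
      rw [Real.rpow_neg (p_pos p).le]
      norm_num
    rw [h1]
    have h2 : (4 : ℝ) ≤ ((p : ℕ) : ℝ) ^ 2 := by nlinarith [two_le_p p]
    have h3 : (((p : ℕ) : ℝ) ^ 2)⁻¹ ≤ (4 : ℝ)⁻¹ := inv_anti₀ (by norm_num) h2
    linarith
  have hle : ∀ (p : Nat.Primes) (s : ℂ), s ∈ {s : ℂ | c + 2 < s.re} →
      ‖ell ((yy p s : ℂˣ) : ℂ) (x p)‖ ≤ 2 * ((p : ℕ) : ℝ) ^ (-2 : ℝ) := by
    intro p s hs
    rcases hc p with h1 | ⟨z, h1, h1'⟩
    · rw [h1, map_zero, norm_zero]
      exact mul_nonneg (by norm_num) (Real.rpow_nonneg (p_pos p).le _)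
    · rw [h1, ell_single, Int.cast_one, one_mul, norm_neg]
      have h2 := hsmall p z s h1' hs
      have h3 := hquart p
      have h4 := Complex.norm_log_one_add_half_le_self (z := -((z : ℂ) * ((yy p s : ℂˣ) : ℂ)))
        (by rw [norm_neg]; linarith)
      rw [← sub_eq_add_neg, norm_neg] at h4
      nlinarith [norm_nonneg ((z : ℂ) * ((yy p s : ℂˣ) : ℂ))]
  refine ⟨c + 2, fun s hs => ?_, ?_⟩
  · exact Summable.of_norm_bounded hu fun p => hle p s hs
  · refine differentiableOn_tsum_of_summable_norm hu (fun p => ?_) (isOpen_hp _) hle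
    rcases hc p with h1 | ⟨z, h1, h1'⟩
    · simp only [h1, map_zero]
      exact differentiableOn_const _
    · simp only [h1, ell_single, Int.cast_one, one_mul]
      intro s hs
      have h2 := hsmall p z s h1' hs
      have h3 := hquart p
      have h4 : 1 - (z : ℂ) * ((yy p s : ℂˣ) : ℂ) ∈ slitPlane := one_sub_mem (by linarith)
      have h5 : DifferentiableAt ℂ (fun s : ℂ => ((yy p s : ℂˣ) : ℂ)) s := by
        simp only [coe_yy]
        exact (differentiableAt_id.neg).const_cpow (Or.inl (pc_ne p))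
      exact (((h5.const_mul _).const_sub _).clog h4).neg.differentiableWithinAt

theorem exists_an {x : Fam} (hx : x ∈ Tm) : ∃ c : ℝ, An c x := by
  rw [tame_iff] at hx
  induction hx using AddSubgroup.closure_induction with
  | mem x hx => exact Basic.exists_an hx
  | zero => exact ⟨0, An.zero 0⟩
  | add x y _ _ hx hy =>
    obtain ⟨c, hc⟩ := hx
    obtain ⟨d, hd⟩ := hy
    exact ⟨max c d, (hc.mono (le_max_left _ _)).add (hd.mono (le_max_right _ _))⟩
  | neg x _ hx =>
    obtain ⟨c, hc⟩ := hx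
    exact ⟨c, hc.neg⟩

theorem exists_an_finset {ι : Type*} {J : Finset ι} {x : ι → Fam} (h : ∀ j ∈ J, x j ∈ Tm) :
    ∃ c : ℝ, ∀ j ∈ J, An c (x j) := by
  classical
  induction J using Finset.induction_on with
  | empty => exact ⟨0, by simp⟩
  | insert a s ha ih =>
    obtain ⟨c, hc⟩ := exists_an (h a (Finset.mem_insert_self _ _))
    obtain ⟨d, hd⟩ := ih fun j hj => h j (Finset.mem_insert_of_mem hj)
    refine ⟨max c d, fun j hj => ?_⟩
    rcases Finset.mem_insert.1 hj with rfl | hj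
    · exact hc.mono (le_max_left _ _)
    · exact (hd j hj).mono (le_max_right _ _)

/-- the tame families whose Euler product has a meromorphic continuation to the plane -/
noncomputable def Good : AddSubgroup Fam where
  carrier := {x | x ∈ Tm ∧ ∃ F : ℂ → ℂ, MeromorphicOn F univ ∧ ∃ c : ℝ, ∀ s : ℂ, c < s.re →
    F s = Complex.exp (Lam x s)}
  zero_mem' := ⟨Tm.zero_mem, fun _ => 1, MeromorphicOn.const 1, 0, fun s _ => by
    rw [Lam_zero, Complex.exp_zero]⟩
  add_mem' := by
    rintro x y ⟨hx, F, hF, c, hc⟩ ⟨hy, G, hG, d, hd⟩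
    obtain ⟨a, ha⟩ := exists_an hx
    obtain ⟨b, hb⟩ := exists_an hy
    refine ⟨Tm.add_mem hx hy, F * G, hF.mul hG, max (max a b) (max c d), fun s hs => ?_⟩
    have h1 : a < s.re := lt_of_le_of_lt ((le_max_left _ _).trans (le_max_left _ _)) hs
    have h2 : b < s.re := lt_of_le_of_lt ((le_max_right _ _).trans (le_max_left _ _)) hs
    have h3 : c < s.re := lt_of_le_of_lt ((le_max_left _ _).trans (le_max_right _ _)) hs
    have h4 : d < s.re := lt_of_le_of_lt ((le_max_right _ _).trans (le_max_right _ _)) hs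
    rw [Pi.mul_apply, hc s h3, hd s h4, Lam_add (ha.1 s h1) (hb.1 s h2), Complex.exp_add]
  neg_mem' := by
    rintro x ⟨hx, F, hF, c, hc⟩
    refine ⟨Tm.neg_mem hx, F⁻¹, hF.inv, c, fun s hs => ?_⟩
    rw [Pi.inv_apply, hc s hs, Lam_neg, Complex.exp_neg]

theorem good_tw {x : Fam} (hx : x ∈ Good) (w : ℂ) : x * tw w ∈ Good := by
  obtain ⟨hx, F, hF, c, hc⟩ := hx
  refine ⟨Tm.mul_mem hx (Basic.tw w).tame, fun s => F (s + w), ?_, c - w.re, fun s hs => ?_⟩
  · intro s _
    exact (hF (s + w) (mem_univ _)).comp_analyticAt (g := fun s => s + w)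
      (analyticAt_id.add analyticAt_const)
  · change F (s + w) = _
    rw [Lam_tw, hc]
    rw [Complex.add_re]
    linarith

/-- **Isolation.** -/
theorem isolate {J : Finset ℤ} {x : ℤ → Fam} (hx : ∀ j ∈ J, x j ∈ Tm) {W : ℕ → ℂ}
    (hW : Tendsto (fun n => (W n).re) atTop atBot)
    (h : ∀ n, ∑ j ∈ J, x j * tw (j * W n) ∈ Good) : ∀ j ∈ J, x j ∈ Good := by
  classical
  induction J using Finset.induction_on_max with
  | empty => simp
  | insert a J hmax ih =>
    have haJ : a ∉ J := fun h => lt_irrefl _ (hmax a h)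
    have ha : x a ∈ Good := by
      obtain ⟨c, hc⟩ := exists_an_finset hx
      refine ⟨hx a (Finset.mem_insert_self _ _), ?_⟩
      have hca := hc a (Finset.mem_insert_self _ _)
      have key := glue (f := fun s => Complex.exp (Lam (x a) s)) (c := c) (hca.2.cexp) ?_
      · obtain ⟨F, hF, hF'⟩ := key
        exact ⟨F, hF, c, hF'⟩
      intro M
      obtain ⟨n, hn⟩ := (hW.eventually (eventually_lt_atBot (-(M : ℝ) - |c| - 1))).exists
      obtain ⟨F, hF, d, hd⟩ := (h n).2
      set H : ℂ → ℂ := fun s => Complex.exp (∑ j ∈ J, Lam (x j) (s + (j - a) * W n)) with hH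
      have hre : ∀ j ∈ J, ∀ s : ℂ, -(M : ℝ) < s.re → c < (s + (j - a) * W n).re := by
        intro j hj s hs
        have h1 : (s + ((j : ℂ) - a) * W n).re = s.re + ((j : ℝ) - a) * (W n).re := by
          rw [Complex.add_re, Complex.mul_re]
          simp
        rw [h1]
        have h2 : (j : ℝ) + 1 ≤ a := by exact_mod_cast hmax j hj
        have h3 : (M : ℝ) + |c| + 1 < -(W n).re := by linarith
        have h4 : 0 ≤ |c| := abs_nonneg c
        have h5 : (0 : ℝ) ≤ M := Nat.cast_nonneg M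
        have h6 : c ≤ |c| := le_abs_self c
        nlinarith
      have hHd : DifferentiableOn ℂ H {s : ℂ | -(M : ℝ) < s.re} := by
        refine DifferentiableOn.cexp ?_
        refine DifferentiableOn.fun_sum fun j hj => ?_
        refine (hc j (Finset.mem_insert_of_mem hj)).2.comp
          (f := fun s : ℂ => s + (j - a) * W n) ?_ (fun s hs => hre j hj s hs)
        exact (differentiable_id.add_const _).differentiableOn
      refine ⟨fun s => F (s - a * W n) / H s, ?_, max (max c (-(M : ℝ))) (d + (a * W n).re),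
        fun s hs => ?_⟩
      · intro s hs
        refine MeromorphicAt.div ?_ ?_
        · exact (hF (s - a * W n) (mem_univ _)).comp_analyticAt (g := fun s => s - a * W n)
            (analyticAt_id.sub analyticAt_const)
        · exact ((hHd.analyticOnNhd (isOpen_hp _)) s hs).meromorphicAt
      · have h1 : c < s.re := lt_of_le_of_lt ((le_max_left _ _).trans (le_max_left _ _)) hs
        have h2 : -(M : ℝ) < s.re := lt_of_le_of_lt ((le_max_right _ _).trans (le_max_left _ _)) hs
        have h3 : d + (a * W n).re < s.re := lt_of_le_of_lt (le_max_right _ _) hs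
        have h4 : d < (s - a * W n).re := by rw [Complex.sub_re]; linarith
        simp only
        rw [hd _ h4, hH]
        simp only
        rw [← Complex.exp_sub]
        congr 1
        have h5 : ∀ j ∈ insert a J, Summable fun p : Nat.Primes =>
            ell ((yy p (s - a * W n) : ℂˣ) : ℂ) ((x j * tw (j * W n)) p) := by
          intro j hj
          refine summable_tw ?_
          refine (hc j hj).1 _ ?_
          rcases Finset.mem_insert.1 hj with rfl | hj
          · rw [sub_add_cancel]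
            exact h1
          · have h6 := hre j hj s h2
            have h7 : s - a * W n + j * W n = s + (j - a) * W n := by ring
            rw [h7]
            exact h6
        rw [(Lam_sum h5).1, Finset.sum_insert haJ, Lam_tw, sub_add_cancel, add_sub_assoc,
          sub_eq_zero.2, add_zero]
        refine Finset.sum_congr rfl fun j _ => ?_
        rw [Lam_tw]
        congr 1
        ring
    intro j hj
    rcases Finset.mem_insert.1 hj with rfl | hj
    · exact ha
    · refine ih (fun j hj => hx j (Finset.mem_insert_of_mem hj)) (fun n => ?_) j hj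
      have h1 := Good.sub_mem (h n) (good_tw ha (a * W n))
      rwa [Finset.sum_insert haJ, add_sub_cancel_left] at h1

/-- isolation with the real parts tending to `+ ∞` -/
theorem isolate' {J : Finset ℤ} {x : ℤ → Fam} (hx : ∀ j ∈ J, x j ∈ Tm) {W : ℕ → ℂ}
    (hW : Tendsto (fun n => (W n).re) atTop atTop)
    (h : ∀ n, ∑ j ∈ J, x j * tw (j * W n) ∈ Good) : ∀ j ∈ J, x j ∈ Good := by
  classical
  intro j hj
  have h1 := isolate (J := J.image fun i => -i) (x := fun i => x (-i)) (W := fun n => -W n) ?_ ?_ ?_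
    (-j) (Finset.mem_image_of_mem _ hj)
  · simpa using h1
  · intro i hi
    obtain ⟨k, hk, rfl⟩ := Finset.mem_image.1 hi
    simpa using hx k hk
  · simp only [Complex.neg_re]
    exact tendsto_neg_atTop_atBot.comp hW
  · intro n
    rw [Finset.sum_image fun a _ b _ hab => neg_injective hab]
    simpa using h n

end Pool.Agent.K7.H58.EP
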